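import Mathlib

/-!
# [H79 CG DEFS] Harmonic functions of finite energy

`IsHD S u`: the energy of `u : G → ℝ` on the Cayley graph of `G` with respect to `S` is finite and `u` is harmonic.
`beta S = ∑ s ∈ S, sup {(u 1 - u s) ^ 2 : u harmonic of energy ≤ 1}`; if `S` generates `G`, this is the first
`ℓ²`-Betti number of `G`.
-/

set_option autoImplicit false

namespace Pool.Agent.H79.CG

universe u

variable {G : Type u} [Group G]

/-- `u` is a harmonic function of finite energy on the Cayley graph with respect to `S` -/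
def IsHD (S : Finset G) (u : G → ℝ) : Prop :=
  (∀ s ∈ S, Summable fun x => (u x - u (x * s)) ^ 2) ∧
    ∀ x, ∑ s ∈ S, ((u x - u (x * s)) + (u x - u (x * s⁻¹))) = 0

/-- the sum over `s ∈ S` of the suprema of `(u 1 - u s) ^ 2` over the harmonic functions `u` of energy at most one -/
noncomputable def beta (S : Finset G) : ℝ :=
  ∑ s ∈ S, sSup {t : ℝ | ∃ u : G → ℝ, IsHD S u ∧ ∑ s' ∈ S, ∑' x, (u x - u (x * s')) ^ 2 ≤ 1 ∧ t = (u 1 - u s) ^ 2}

/-- `b` is a cocycle with values in `ℓ²(G)`, with the left regular representation -/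
def IsCocycle (b : G → G → ℝ) : Prop :=
  (∀ g, Summable fun x => b g x ^ 2) ∧ ∀ g h x, b (g * h) x = b g x + b h (g⁻¹ * x)

/-- `b` is a pointwise limit of inner cocycles -/
def IsLimInner (b : G → G → ℝ) : Prop :=
  ∀ (S : Finset G) (ε : ℝ), 0 < ε → ∃ v : G → ℝ, (Summable fun x => v x ^ 2) ∧
    ∀ g ∈ S, ∑' x, (b g x - (v x - v (g⁻¹ * x))) ^ 2 < ε

open Classical in
/-- the number of left cosets of `H` which meet `A` -/
noncomputable def nc (H : Subgroup G) (A : Finset G) : ℕ :=
  (A.image (fun a => (QuotientGroup.mk a : G ⧸ H))).card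

open Classical in
/-- the number of left cosets of `H` which meet `A` or `A s` -/
noncomputable def ncs (H : Subgroup G) (s : G) (A : Finset G) : ℕ := nc H (A ∪ A.image (fun a => a * s))

end Pool.Agent.H79.CG
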