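import Pool.Agent.H79.CG.Tr

/-!
# Module RANK [H79 CG]: the rank bound for compressions

If the restrictions to `A × {s}` of the unit ball of `K` are within `η` of the range of a linear map
with `N` parameters, then `∑_(a ∈ A) q K a s ≤ N + o(1)`.
-/

set_option autoImplicit false

open scoped Classical InnerProductSpace

noncomputable section

namespace Pool.Agent.H79.CG

universe u

variable {G : Type u} {ι : Type}

/-- restriction to `A × {s}` -/
private def Rs (A : Finset G) (s : ι) (φ : E G ι) : EuclideanSpace ℝ A :=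
  WithLp.toLp 2 fun a => φ (a.1, s)

private theorem Rs_apply (A : Finset G) (s : ι) (φ : E G ι) (a : A) :
    Rs A s φ a = φ (a.1, s) := rfl

private theorem Rs_smul (A : Finset G) (s : ι) (c : ℝ) (φ : E G ι) :
    Rs A s (c • φ) = c • Rs A s φ := rfl

private theorem Rs_cont (A : Finset G) (s : ι) : Continuous (Rs A s : E G ι → EuclideanSpace ℝ A) := by
  refine (PiLp.continuous_toLp 2 _).comp (continuous_pi fun a => ?_)
  have h : (fun φ : E G ι => φ (a.1, s)) = fun φ => ⟪φ, dl a.1 s⟫_ℝ :=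
    funext fun φ => (inner_dl φ _ _).symm
  rw [h]
  exact continuous_id.inner continuous_const

private theorem inner_star {F : Type*} [NormedAddCommGroup F] [InnerProductSpace ℝ F]
    (V : Submodule ℝ F) [V.HasOrthogonalProjection] (x : F) :
    ⟪x, V.starProjection x⟫_ℝ = ‖V.starProjection x‖ ^ 2 := by
  have h := V.starProjection_inner_eq_zero x (V.starProjection x)
    (V.starProjection_apply_mem x)
  rw [inner_sub_left, sub_eq_zero] at h
  rw [h, real_inner_self_eq_norm_sq]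

private theorem sum_proj {A : Finset G} (V : Submodule ℝ (EuclideanSpace ℝ A)) :
    ∑ a : A, ‖V.starProjection (EuclideanSpace.basisFun A ℝ a)‖ ^ 2 =
      (Module.finrank ℝ V : ℝ) := by
  have h1 : LinearMap.IsProj V (V.starProjection : EuclideanSpace ℝ A →ₗ[ℝ] EuclideanSpace ℝ A) :=
    ⟨fun x => V.starProjection_apply_mem x, fun x hx => Submodule.starProjection_eq_self_iff.2 hx⟩
  rw [← h1.trace, LinearMap.trace_eq_sum_inner _ (EuclideanSpace.basisFun A ℝ)]
  refine Finset.sum_congr rfl fun a _ => ?_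
  exact (inner_star V _).symm

private theorem finrank_range {N : Type*} [Fintype N] {F : Type*} [AddCommGroup F] [Module ℝ F]
    [Module.Finite ℝ F] (T : (N → ℝ) →ₗ[ℝ] F) :
    Module.finrank ℝ (LinearMap.range T) ≤ Fintype.card N := by
  have h := LinearMap.finrank_range_le T
  rwa [Module.finrank_fintype_fun_eq_card] at h

private theorem norm_le_sup {A : Finset G} (v : EuclideanSpace ℝ A) {η : ℝ} (hη : 0 ≤ η)
    (h : ∀ a, |v a| ≤ η) : ‖v‖ ≤ √A.card * η := by
  have h1 : ‖v‖ ^ 2 ≤ (√A.card * η) ^ 2 := by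
    rw [EuclideanSpace.norm_sq_eq, mul_pow, Real.sq_sqrt (Nat.cast_nonneg _)]
    calc ∑ i, ‖v i‖ ^ 2 ≤ ∑ _i : A, η ^ 2 := by
          refine Finset.sum_le_sum fun i _ => ?_
          rw [Real.norm_eq_abs]
          exact pow_le_pow_left₀ (abs_nonneg _) (h i) 2
      _ = A.card * η ^ 2 := by
          rw [Finset.sum_const, Finset.card_univ, Fintype.card_coe, nsmul_eq_mul]
  exact (sq_le_sq₀ (norm_nonneg _) (by positivity)).1 h1

private theorem rank_aux {N : Type*} [Fintype N] (T : (N → ℝ) →ₗ[ℝ] (G → ℝ))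
    (K : Submodule ℝ (E G ι)) (A : Finset G) (s : ι) (η : ℝ) (hη : 0 ≤ η)
    (h : ∀ φ ∈ K, ‖φ‖ ≤ 1 → ∃ c : N → ℝ, ∀ a ∈ A, |φ (a, s) - T c a| ≤ η) :
    ∃ V : Submodule ℝ (EuclideanSpace ℝ A), Module.finrank ℝ V ≤ Fintype.card N ∧
      ∀ φ ∈ K.topologicalClosure, ‖Rs A s φ - V.starProjection (Rs A s φ)‖ ≤ √A.card * η * ‖φ‖ := by
  let T' : (N → ℝ) →ₗ[ℝ] EuclideanSpace ℝ A :=
    { toFun := fun c => WithLp.toLp 2 fun a : A => T c a.1
      map_add' := fun c d => by
        rw [map_add]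
        rfl
      map_smul' := fun r c => by
        rw [map_smul]
        rfl }
  refine ⟨LinearMap.range T', finrank_range T', ?_⟩
  have hmin : ∀ (x : EuclideanSpace ℝ A) (c : N → ℝ),
      ‖x - (LinearMap.range T').starProjection x‖ ≤ ‖x - T' c‖ := by
    intro x c
    rw [Submodule.starProjection_minimal]
    exact ciInf_le ⟨0, by rintro _ ⟨y, rfl⟩; exact norm_nonneg _⟩
      (⟨T' c, LinearMap.mem_range_self T' c⟩ : LinearMap.range T')
  have hK : ∀ φ ∈ K, ‖Rs A s φ - (LinearMap.range T').starProjection (Rs A s φ)‖ ≤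
      √A.card * η * ‖φ‖ := by
    intro φ hφ
    by_cases h0 : φ = 0
    · subst h0
      have h1 : Rs A s (0 : E G ι) = 0 := rfl
      rw [h1, map_zero, sub_zero, norm_zero, norm_zero, mul_zero]
    · have hn : 0 < ‖φ‖ := norm_pos_iff.2 h0
      have h2 : ‖(‖φ‖⁻¹ • φ : E G ι)‖ ≤ 1 := by
        rw [norm_smul, norm_inv, norm_norm, inv_mul_cancel₀ hn.ne']
      obtain ⟨c, hc⟩ := h (‖φ‖⁻¹ • φ) (K.smul_mem _ hφ) h2
      have h3 := (hmin (Rs A s (‖φ‖⁻¹ • φ)) c).trans
        (norm_le_sup (Rs A s (‖φ‖⁻¹ • φ) - T' c) hη fun a => hc a.1 a.2)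
      have h4 : Rs A s φ = ‖φ‖ • Rs A s (‖φ‖⁻¹ • φ) := by
        rw [Rs_smul, smul_smul, mul_inv_cancel₀ hn.ne', one_smul]
      rw [h4, map_smul, ← smul_sub, norm_smul, norm_norm, mul_comm]
      exact mul_le_mul_of_nonneg_right h3 hn.le
  intro φ hφ
  have hc : IsClosed {φ : E G ι | ‖Rs A s φ - (LinearMap.range T').starProjection (Rs A s φ)‖ ≤
      √A.card * η * ‖φ‖} :=
    isClosed_le (((Rs_cont A s).sub ((LinearMap.range T').starProjection.continuous.comp
      (Rs_cont A s))).norm) (continuous_const.mul continuous_norm)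
  have hs : (K : Set (E G ι)) ⊆ {φ : E G ι |
      ‖Rs A s φ - (LinearMap.range T').starProjection (Rs A s φ)‖ ≤ √A.card * η * ‖φ‖} := hK
  exact closure_minimal hs hc hφ

/-- extension by zero from `A × {s}` -/
private def Ex (A : Finset G) (s : ι) (v : EuclideanSpace ℝ A) : E G ι :=
  ∑ a : A, v a • dl a.1 s

private theorem inner_Ex (A : Finset G) (s : ι) (v : EuclideanSpace ℝ A) (φ : E G ι) :
    ⟪φ, Ex A s v⟫_ℝ = ⟪Rs A s φ, v⟫_ℝ := by
  rw [Ex, inner_sum, PiLp.inner_apply]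
  refine Finset.sum_congr rfl fun a _ => ?_
  rw [real_inner_smul_right, inner_dl, Rs_apply]
  simp

private theorem Rs_Ex (A : Finset G) (s : ι) (v : EuclideanSpace ℝ A) : Rs A s (Ex A s v) = v := by
  ext b
  rw [Rs_apply, ← inner_dl, Ex, sum_inner, Finset.sum_eq_single b]
  · rw [real_inner_smul_left, inner_dl, dl_apply, if_pos ⟨rfl, rfl⟩, mul_one]
  · intro a _ hab
    rw [real_inner_smul_left, inner_dl, dl_apply, if_neg, mul_zero]
    intro he
    exact hab (Subtype.ext he.1.symm)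
  · intro hb
    exact absurd (Finset.mem_univ _) hb

private theorem norm_Ex (A : Finset G) (s : ι) (v : EuclideanSpace ℝ A) : ‖Ex A s v‖ = ‖v‖ := by
  have h : ‖Ex A s v‖ ^ 2 = ‖v‖ ^ 2 := by
    rw [← real_inner_self_eq_norm_sq, inner_Ex, Rs_Ex, real_inner_self_eq_norm_sq]
  exact (sq_eq_sq₀ (norm_nonneg _) (norm_nonneg _)).1 h

theorem rank_le {N : Type*} [Fintype N] (T : (N → ℝ) →ₗ[ℝ] (G → ℝ)) (K : Submodule ℝ (E G ι))
    (A : Finset G) (s : ι) (η : ℝ)
    (h : ∀ φ ∈ K, ‖φ‖ ≤ 1 → ∃ c : N → ℝ, ∀ a ∈ A, |φ (a, s) - T c a| ≤ η) :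
    ∑ a ∈ A, q K a s ≤ Fintype.card N + A.card * (2 * √A.card * η + A.card * η ^ 2) := by
  rcases A.eq_empty_or_nonempty with hA | hA
  · subst hA
    simp
  have hη : 0 ≤ η := by
    obtain ⟨a, ha⟩ := hA
    obtain ⟨c, hc⟩ := h 0 K.zero_mem (by simp)
    exact (abs_nonneg _).trans (hc a ha)
  obtain ⟨V, hV, hV2⟩ := rank_aux T K A s η hη h
  have key : ∀ a : A, q K a.1 s ≤ ‖V.starProjection (EuclideanSpace.basisFun A ℝ a)‖ ^ 2 +
      (2 * √A.card * η + A.card * η ^ 2) := by
    intro a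
    set e : EuclideanSpace ℝ A := EuclideanSpace.basisFun A ℝ a with he
    set r : ℝ := ‖pr K (dl a.1 s)‖ with hr
    have hr0 : 0 ≤ r := norm_nonneg _
    have hq : q K a.1 s = r ^ 2 := q_eq_norm_sq K _ _
    have hen : ‖e‖ = 1 := by
      rw [he, (EuclideanSpace.basisFun A ℝ).norm_eq_one]
    have hp : ‖V.starProjection e‖ ≤ 1 := by
      have := V.norm_starProjection_apply_le e
      rwa [hen] at this
    have h1 : q K a.1 s = ⟪Rs A s (pr K (dl a.1 s)), e⟫_ℝ := by
      rw [q, inner_dl, real_inner_comm, he, EuclideanSpace.basisFun_apply,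
        EuclideanSpace.inner_single_left]
      simp [Rs_apply]
    have h2 : ⟪V.starProjection (Rs A s (pr K (dl a.1 s))), e⟫_ℝ ≤ r * ‖V.starProjection e‖ := by
      rw [V.starProjection_isSymmetric.apply_clm, ← inner_Ex]
      calc ⟪pr K (dl a.1 s), Ex A s (V.starProjection e)⟫_ℝ
          ≤ ‖pr K (dl a.1 s)‖ * ‖Ex A s (V.starProjection e)‖ := real_inner_le_norm _ _
        _ = r * ‖V.starProjection e‖ := by rw [norm_Ex]
    have h3 : ⟪Rs A s (pr K (dl a.1 s)) - V.starProjection (Rs A s (pr K (dl a.1 s))), e⟫_ℝ ≤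
        √A.card * η * r := by
      refine (real_inner_le_norm _ _).trans ?_
      rw [hen, mul_one]
      exact hV2 _ (pr_mem K _)
    have h4 : r ^ 2 ≤ r * (‖V.starProjection e‖ + √A.card * η) := by
      rw [inner_sub_left] at h3
      rw [← hq, h1]
      linarith
    have h5 : r ≤ ‖V.starProjection e‖ + √A.card * η := by
      rcases hr0.eq_or_lt with h6 | h6
      · rw [← h6]
        positivity
      · rw [sq] at h4
        exact le_of_mul_le_mul_left h4 h6
    have h7 : r ^ 2 ≤ (‖V.starProjection e‖ + √A.card * η) ^ 2 := pow_le_pow_left₀ hr0 h5 2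
    have h8 : (√(A.card : ℝ)) ^ 2 = A.card := Real.sq_sqrt (Nat.cast_nonneg _)
    have h9 : 0 ≤ √(A.card : ℝ) * η := by positivity
    have h10 : ‖V.starProjection e‖ * (√(A.card : ℝ) * η) ≤ 1 * (√(A.card : ℝ) * η) :=
      mul_le_mul_of_nonneg_right hp h9
    rw [hq]
    calc r ^ 2 ≤ (‖V.starProjection e‖ + √A.card * η) ^ 2 := h7
      _ = ‖V.starProjection e‖ ^ 2 + (2 * (‖V.starProjection e‖ * (√A.card * η)) +
            (√(A.card : ℝ)) ^ 2 * η ^ 2) := by ring
      _ ≤ ‖V.starProjection e‖ ^ 2 + (2 * √A.card * η + A.card * η ^ 2) := by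
          rw [h8]
          linarith
  calc ∑ a ∈ A, q K a s = ∑ a : A, q K a.1 s := (Finset.sum_coe_sort A fun a => q K a s).symm
    _ ≤ ∑ a : A, (‖V.starProjection (EuclideanSpace.basisFun A ℝ a)‖ ^ 2 +
          (2 * √A.card * η + A.card * η ^ 2)) := Finset.sum_le_sum fun a _ => key a
    _ = (Module.finrank ℝ V : ℝ) + A.card * (2 * √A.card * η + A.card * η ^ 2) := by
        rw [Finset.sum_add_distrib, sum_proj, Finset.sum_const, Finset.card_univ,
          Fintype.card_coe, nsmul_eq_mul]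
    _ ≤ Fintype.card N + A.card * (2 * √A.card * η + A.card * η ^ 2) := by
        have : (Module.finrank ℝ V : ℝ) ≤ Fintype.card N := by exact_mod_cast hV
        linarith

end Pool.Agent.H79.CG
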