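import Mathlib

/-!
# Module TR [H79 CG]: equivariant operators on `ℓ²(G × ι)`, traces, projections

`E G ι = ℓ²(G × ι)`, `dl x l` the basis vectors, `L g` the left translations, `Eqv T`: `T` commutes
with the left translations, `tr T = ∑ l, ⟪T (dl 1 l), dl 1 l⟫`, `pr K` the orthogonal projection
onto the closure of `K`, `q K x l = ⟪pr K (dl x l), dl x l⟫`.
-/

set_option autoImplicit false

open scoped Classical InnerProductSpace

noncomputable section

namespace Pool.Agent.H79.CG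

universe u

variable {G : Type u} {ι κ : Type}

/-- the Hilbert space `ℓ²(G × ι)` -/
abbrev E (G : Type u) (ι : Type) := lp (fun _ : G × ι => ℝ) 2

/-- the basis vectors -/
def dl (x : G) (l : ι) : E G ι := lp.single 2 (x, l) (1 : ℝ)

theorem inner_dl' (φ : E G ι) (x : G) (l : ι) : ⟪dl x l, φ⟫_ℝ = φ (x, l) := by
  rw [dl, lp.inner_single_left]
  simp

theorem inner_dl (φ : E G ι) (x : G) (l : ι) : ⟪φ, dl x l⟫_ℝ = φ (x, l) := by
  rw [real_inner_comm, inner_dl']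

theorem dl_apply (x y : G) (l k : ι) :
    dl x l (y, k) = if y = x ∧ k = l then (1 : ℝ) else 0 := by
  rw [dl]
  by_cases h : y = x ∧ k = l
  · rw [if_pos h, h.1, h.2, lp.single_apply_self]
  · rw [if_neg h, lp.single_apply_ne]
    intro he
    exact h ⟨congrArg Prod.fst he, congrArg Prod.snd he⟩

theorem norm_dl (x : G) (l : ι) : ‖dl x l‖ = 1 := by
  have h : ‖dl x l‖ ^ 2 = 1 := by
    rw [← real_inner_self_eq_norm_sq, inner_dl, dl_apply, if_pos ⟨rfl, rfl⟩]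
  nlinarith [norm_nonneg (dl x l), sq_nonneg (‖dl x l‖ - 1)]

theorem E_ext {f g : E G ι} (h : ∀ p, f p = g p) : f = g := lp.ext (funext h)

theorem E_nsq (f : E G ι) : HasSum (fun p => f p ^ 2) (‖f‖ ^ 2) := by
  have h := lp.hasSum_inner (𝕜 := ℝ) f f
  rw [real_inner_self_eq_norm_sq] at h
  have key : ∀ p : G × ι, ⟪f p, f p⟫_ℝ = f p ^ 2 := fun p => by
    rw [real_inner_self_eq_norm_sq, Real.norm_eq_abs, sq_abs]
  exact (funext key : _ = _) ▸ h

theorem E_inner (f g : E G ι) : HasSum (fun p => f p * g p) ⟪f, g⟫_ℝ := by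
  have h := lp.hasSum_inner (𝕜 := ℝ) f g
  have key : ∀ p : G × ι, ⟪f p, g p⟫_ℝ = f p * g p := fun p => by
    simp [mul_comm]
  exact (funext key : _ = _) ▸ h

theorem E_mem {f : G × ι → ℝ} (h : Summable fun p => f p ^ 2) : Memℓp f 2 := by
  rw [memℓp_gen_iff (by norm_num)]
  have h2 : (2 : ENNReal).toReal = ((2 : ℕ) : ℝ) := by norm_num
  simpa [h2, Real.rpow_natCast] using h

/-- an element of `ℓ²` from a function -/
def mk (f : G × ι → ℝ) (h : Summable fun p => f p ^ 2) : E G ι := ⟨f, E_mem h⟩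

theorem mk_apply (f : G × ι → ℝ) (h : Summable fun p => f p ^ 2) (p : G × ι) : mk f h p = f p := rfl

/-- the basis vectors are total -/
theorem E_zero {f : E G ι} (h : ∀ x l, ⟪f, dl x l⟫_ℝ = 0) : f = 0 :=
  E_ext fun p => by
    have h1 := h p.1 p.2
    rw [inner_dl] at h1
    exact h1

variable [Group G]

/-- the bijection behind the left translation -/
def Le (g : G) : G × ι ≃ G × ι := (Equiv.mulLeft g⁻¹).prodCongr (Equiv.refl ι)

/-- left translation, as a linear map -/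
def L0 (g : G) : E G ι →ₗ[ℝ] E G ι where
  toFun f := mk (fun p => f (Le g p))
    (((Le g).summable_iff (f := fun p => f p ^ 2)).2 (E_nsq f).summable)
  map_add' _ _ := rfl
  map_smul' _ _ := rfl

theorem norm_L0 (g : G) (f : E G ι) : ‖L0 g f‖ = ‖f‖ := by
  have h1 : HasSum (fun p => L0 g f p ^ 2) (‖f‖ ^ 2) :=
    ((Le g).hasSum_iff (f := fun p => f p ^ 2)).2 (E_nsq f)
  have h2 := (E_nsq (L0 g f)).unique h1
  exact (sq_eq_sq₀ (norm_nonneg _) (norm_nonneg _)).1 h2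

/-- left translation -/
def L (g : G) : E G ι →L[ℝ] E G ι :=
  (L0 g).mkContinuous 1 fun f => by rw [norm_L0, one_mul]

theorem L_apply (g : G) (φ : E G ι) (x : G) (l : ι) : L g φ (x, l) = φ (g⁻¹ * x, l) := rfl

theorem norm_L (g : G) (φ : E G ι) : ‖L g φ‖ = ‖φ‖ := norm_L0 g φ

theorem inner_L (g : G) (φ ψ : E G ι) : ⟪L g φ, L g ψ⟫_ℝ = ⟪φ, ψ⟫_ℝ := by
  refine (E_inner (L g φ) (L g ψ)).unique ?_
  exact ((Le g).hasSum_iff (f := fun p => φ p * ψ p)).2 (E_inner φ ψ)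

theorem L_dl (g x : G) (l : ι) : L g (dl x l) = dl (g * x) l := by
  apply E_ext
  rintro ⟨y, k⟩
  rw [L_apply, dl_apply, dl_apply]
  have h : g⁻¹ * y = x ↔ y = g * x := inv_mul_eq_iff_eq_mul
  rw [h]

theorem L_mul (g h : G) (φ : E G ι) : L (g * h) φ = L g (L h φ) := by
  apply E_ext
  rintro ⟨x, l⟩
  rw [L_apply, L_apply, L_apply, mul_inv_rev, mul_assoc]

theorem L_one (φ : E G ι) : L (1 : G) φ = φ := by
  apply E_ext
  rintro ⟨x, l⟩
  rw [L_apply, inv_one, one_mul]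

theorem L_inv_L (g : G) (φ : E G ι) : L g⁻¹ (L g φ) = φ := by
  rw [← L_mul, inv_mul_cancel, L_one]

theorem L_L_inv (g : G) (φ : E G ι) : L g (L g⁻¹ φ) = φ := by
  rw [← L_mul, mul_inv_cancel, L_one]

/-- operators commuting with the left translations -/
def Eqv (T : E G ι →L[ℝ] E G κ) : Prop := ∀ g φ, T (L g φ) = L g (T φ)

theorem eqv_entry {T : E G ι →L[ℝ] E G κ} (hT : Eqv T) (g x y : G) (l : ι) (k : κ) :
    T (dl (g * y) l) (g * x, k) = T (dl y l) (x, k) := by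
  rw [← L_dl, hT, L_apply, inv_mul_cancel_left]

theorem Eqv.comp {μ : Type} {A : E G κ →L[ℝ] E G μ} {B : E G ι →L[ℝ] E G κ} (hA : Eqv A)
    (hB : Eqv B) : Eqv (A ∘L B) := fun g φ => by
  rw [ContinuousLinearMap.comp_apply, hB, hA, ContinuousLinearMap.comp_apply]

theorem Eqv.id : Eqv (ContinuousLinearMap.id ℝ (E G ι)) := fun _ _ => rfl

theorem Eqv.add {A B : E G ι →L[ℝ] E G κ} (hA : Eqv A) (hB : Eqv B) : Eqv (A + B) := fun g φ => by
  rw [add_apply, hA, hB, add_apply, map_add]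

theorem Eqv.sub {A B : E G ι →L[ℝ] E G κ} (hA : Eqv A) (hB : Eqv B) : Eqv (A - B) := fun g φ => by
  rw [sub_apply, hA, hB, sub_apply, map_sub]

theorem Eqv.smul {A : E G ι →L[ℝ] E G κ} (hA : Eqv A) (c : ℝ) : Eqv (c • A) := fun g φ => by
  rw [smul_apply, hA, smul_apply, map_smul]

theorem Eqv.zero : Eqv (0 : E G ι →L[ℝ] E G κ) := fun g φ => by
  rw [zero_apply, zero_apply, map_zero]

omit [Group G] in
/-- matrix entries of a composition -/
theorem comp_entry {μ : Type} (A : E G κ →L[ℝ] E G μ) (B : E G ι →L[ℝ] E G κ) (x y : G) (l : ι)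
    (m : μ) : HasSum (fun p : G × κ => A (dl p.1 p.2) (x, m) * B (dl y l) p)
      (A (B (dl y l)) (x, m)) := by
  have h := lp.hasSum_inner (𝕜 := ℝ) ((ContinuousLinearMap.adjoint A) (dl x m)) (B (dl y l))
  rw [ContinuousLinearMap.adjoint_inner_left, inner_dl'] at h
  have key : ∀ p : G × κ,
      ⟪(ContinuousLinearMap.adjoint A (dl x m) : G × κ → ℝ) p, B (dl y l) p⟫_ℝ =
        A (dl p.1 p.2) (x, m) * B (dl y l) p := by
    rintro ⟨z, k⟩
    have h1 : (ContinuousLinearMap.adjoint A (dl x m) : G × κ → ℝ) (z, k) =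
        A (dl z k) (x, m) := by
      rw [← inner_dl, ContinuousLinearMap.adjoint_inner_left, inner_dl']
    rw [h1]
    simp [mul_comm]
  exact (funext key : _ = _) ▸ h

variable [Fintype ι] [Fintype κ]

/-- the trace -/
def tr (T : E G ι →L[ℝ] E G ι) : ℝ := ∑ l, ⟪T (dl 1 l), dl 1 l⟫_ℝ

omit [Group G] in
theorem tr_entry [Group G] (T : E G ι →L[ℝ] E G ι) : tr T = ∑ l, T (dl 1 l) (1, l) :=
  Finset.sum_congr rfl fun _ _ => inner_dl _ _ _

theorem tr_add (A B : E G ι →L[ℝ] E G ι) : tr (A + B) = tr A + tr B := by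
  rw [tr, tr, tr, ← Finset.sum_add_distrib]
  refine Finset.sum_congr rfl fun l _ => ?_
  rw [add_apply, inner_add_left]

theorem tr_sub (A B : E G ι →L[ℝ] E G ι) : tr (A - B) = tr A - tr B := by
  rw [tr, tr, tr, ← Finset.sum_sub_distrib]
  refine Finset.sum_congr rfl fun l _ => ?_
  rw [sub_apply, inner_sub_left]

theorem tr_comp (A : E G κ →L[ℝ] E G ι) (B : E G ι →L[ℝ] E G κ) :
    tr (A ∘L B) = ∑ l, ∑ k, ∑' y, A (dl y k) (1, l) * B (dl 1 l) (y, k) := by
  rw [tr_entry]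
  refine Finset.sum_congr rfl fun l _ => ?_
  have h := comp_entry A B 1 1 l l
  have hs := h.summable
  have h2 : ∀ k : κ, Summable fun y : G => A (dl y k) (1, l) * B (dl 1 l) (y, k) := fun k =>
    hs.comp_injective (i := fun y : G => (y, k)) (fun a b hab => congrArg Prod.fst hab)
  show A (B (dl 1 l)) (1, l) = _
  rw [← h.tsum_eq, hs.tsum_prod, ← Summable.tsum_finsetSum fun k _ => h2 k]
  refine tsum_congr fun y => ?_
  rw [tsum_fintype]

/-- `tr (A B) = tr (B A)` -/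
theorem tr_comm (A : E G ι →L[ℝ] E G κ) (B : E G κ →L[ℝ] E G ι) (hA : Eqv A) (hB : Eqv B) :
    tr (A ∘L B) = tr (B ∘L A) := by
  rw [tr_comp, tr_comp, Finset.sum_comm]
  refine Finset.sum_congr rfl fun l _ => Finset.sum_congr rfl fun k _ => ?_
  rw [← (Equiv.inv G).tsum_eq]
  refine tsum_congr fun y => ?_
  have h1 := eqv_entry hA y 1 y⁻¹ l k
  have h2 := eqv_entry hB y y⁻¹ 1 k l
  rw [mul_one, mul_inv_cancel] at h1 h2
  show A (dl y⁻¹ l) (1, k) * B (dl 1 k) (y⁻¹, l) = B (dl y k) (1, l) * A (dl 1 l) (y, k)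
  rw [h1, ← h2, mul_comm]

section proj

omit [Group G] [Fintype ι] [Fintype κ]

/-- the orthogonal projection onto the closure of `K` -/
def pr (K : Submodule ℝ (E G ι)) : E G ι →L[ℝ] E G ι := K.topologicalClosure.starProjection

theorem pr_mem (K : Submodule ℝ (E G ι)) (φ : E G ι) : pr K φ ∈ K.topologicalClosure :=
  Submodule.starProjection_apply_mem _ _

theorem pr_of_mem' {K : Submodule ℝ (E G ι)} {φ : E G ι} (h : φ ∈ K.topologicalClosure) :
    pr K φ = φ := Submodule.starProjection_eq_self_iff.2 h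

theorem pr_of_mem {K : Submodule ℝ (E G ι)} {φ : E G ι} (h : φ ∈ K) : pr K φ = φ :=
  pr_of_mem' (K.le_topologicalClosure h)

theorem inner_pr (K : Submodule ℝ (E G ι)) (φ ψ : E G ι) :
    ⟪pr K φ, ψ⟫_ℝ = ⟪φ, pr K ψ⟫_ℝ := 
  K.topologicalClosure.starProjection_isSymmetric φ ψ

theorem pr_pr (K : Submodule ℝ (E G ι)) (φ : E G ι) : pr K (pr K φ) = pr K φ :=
  pr_of_mem' (pr_mem K φ)

theorem norm_pr_le (K : Submodule ℝ (E G ι)) (φ : E G ι) : ‖pr K φ‖ ≤ ‖φ‖ :=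
  K.topologicalClosure.norm_starProjection_apply_le φ

/-- `φ - pr K φ` is orthogonal to the closure of `K` -/
theorem inner_sub_pr (K : Submodule ℝ (E G ι)) (φ : E G ι) {ψ : E G ι}
    (hψ : ψ ∈ K.topologicalClosure) : ⟪φ - pr K φ, ψ⟫_ℝ = 0 :=
  Submodule.starProjection_inner_eq_zero _ _ hψ

theorem inner_pr_of_mem {K : Submodule ℝ (E G ι)} (φ : E G ι) {ψ : E G ι}
    (hψ : ψ ∈ K.topologicalClosure) : ⟪pr K φ, ψ⟫_ℝ = ⟪φ, ψ⟫_ℝ := by
  rw [inner_pr, pr_of_mem' hψ]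

/-- uniqueness of the projection -/
theorem pr_unique {K : Submodule ℝ (E G ι)} {φ ψ : E G ι} (h : ψ ∈ K.topologicalClosure)
    (h2 : ∀ w ∈ K, ⟪φ - ψ, w⟫_ℝ = 0) : pr K φ = ψ := by
  apply Submodule.eq_starProjection_of_mem_of_inner_eq_zero h
  intro w hw
  have hc : IsClosed {w : E G ι | ⟪φ - ψ, w⟫_ℝ = 0} :=
    isClosed_eq (continuous_const.inner continuous_id) continuous_const
  exact closure_minimal (fun w hw => h2 w hw) hc hw

/-- the diagonal entries -/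
def q (K : Submodule ℝ (E G ι)) (x : G) (l : ι) : ℝ := ⟪pr K (dl x l), dl x l⟫_ℝ

theorem q_eq_norm_sq (K : Submodule ℝ (E G ι)) (x : G) (l : ι) :
    q K x l = ‖pr K (dl x l)‖ ^ 2 := by
  rw [q, ← real_inner_self_eq_norm_sq, inner_pr K (dl x l) (pr K (dl x l)), pr_pr,
    real_inner_comm]

theorem q_eq_apply (K : Submodule ℝ (E G ι)) (x : G) (l : ι) :
    q K x l = pr K (dl x l) (x, l) := inner_dl _ _ _

theorem q_nonneg (K : Submodule ℝ (E G ι)) (x : G) (l : ι) : 0 ≤ q K x l := by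
  rw [q_eq_norm_sq]
  positivity

theorem q_le_one (K : Submodule ℝ (E G ι)) (x : G) (l : ι) : q K x l ≤ 1 := by
  rw [q_eq_norm_sq]
  have h := norm_pr_le K (dl x l)
  rw [norm_dl] at h
  exact pow_le_one₀ (norm_nonneg _) h

theorem sq_le_q {K : Submodule ℝ (E G ι)} {φ : E G ι} (h : φ ∈ K.topologicalClosure) (x : G)
    (l : ι) : φ (x, l) ^ 2 ≤ ‖φ‖ ^ 2 * q K x l := by
  rw [← inner_dl φ, ← pr_of_mem' h, inner_pr, pr_of_mem' h, q_eq_norm_sq, ← mul_pow, ← sq_abs]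
  exact pow_le_pow_left₀ (abs_nonneg _) (abs_real_inner_le_norm _ _) 2

theorem exists_of_lt_q {K : Submodule ℝ (E G ι)} {x : G} {l : ι} {t : ℝ} (ht : 0 ≤ t)
    (h : t < q K x l) : ∃ φ ∈ K, t * ‖φ‖ ^ 2 < φ (x, l) ^ 2 := by
  have hq : 0 < q K x l := lt_of_le_of_lt ht h
  have h1 : t * ‖pr K (dl x l)‖ ^ 2 < ⟪pr K (dl x l), dl x l⟫_ℝ ^ 2 := by
    rw [← q_eq_norm_sq, ← q, sq]
    exact mul_lt_mul_of_pos_right h hq
  have ho : IsOpen {φ : E G ι | t * ‖φ‖ ^ 2 < ⟪φ, dl x l⟫_ℝ ^ 2} :=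
    isOpen_lt (continuous_const.mul (continuous_norm.pow 2))
      ((continuous_id.inner continuous_const).pow 2)
  obtain ⟨φ, h2, h3⟩ := mem_closure_iff.1 (pr_mem K (dl x l)) _ ho h1
  refine ⟨φ, h3, ?_⟩
  have h4 : t * ‖φ‖ ^ 2 < ⟪φ, dl x l⟫_ℝ ^ 2 := h2
  rwa [inner_dl] at h4

theorem pr_pr_of_le {K M : Submodule ℝ (E G ι)} (h : K ≤ M) (φ : E G ι) :
    pr K (pr M φ) = pr K φ := by
  have hKM : K.topologicalClosure ≤ M.topologicalClosure := Submodule.topologicalClosure_mono h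
  symm
  apply pr_unique (pr_mem K _)
  intro w hw
  have h1 := inner_sub_pr K (pr M φ) (K.le_topologicalClosure hw)
  have h2 := inner_sub_pr M φ (hKM (K.le_topologicalClosure hw))
  rw [inner_sub_left] at h1 h2 ⊢
  linarith

theorem pr_pr_of_le' {K M : Submodule ℝ (E G ι)} (h : K ≤ M) (φ : E G ι) :
    pr M (pr K φ) = pr K φ :=
  pr_of_mem' (Submodule.topologicalClosure_mono h (pr_mem K φ))

theorem q_sub_inner {K M : Submodule ℝ (E G ι)} (x : G) (l : ι) :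
    q M x l - q K x l = ⟪pr M (dl x l) - pr K (dl x l), dl x l⟫_ℝ := by
  rw [q, q, inner_sub_left]

theorem q_sub {K M : Submodule ℝ (E G ι)} (h : K ≤ M) (x : G) (l : ι) :
    q M x l - q K x l = ‖pr M (dl x l) - pr K (dl x l)‖ ^ 2 := by
  have h1 : ⟪pr M (dl x l), pr K (dl x l)⟫_ℝ = q K x l := by
    rw [inner_pr, pr_pr_of_le' h, ← inner_pr, q]
  rw [← real_inner_self_eq_norm_sq, inner_sub_left, inner_sub_right, inner_sub_right,
    real_inner_self_eq_norm_sq, real_inner_self_eq_norm_sq, ← q_eq_norm_sq, ← q_eq_norm_sq,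
    real_inner_comm (pr M (dl x l)) (pr K (dl x l)), h1]
  ring

theorem sub_mem {K M : Submodule ℝ (E G ι)} (h : K ≤ M) (φ : E G ι) :
    pr M φ - pr K φ ∈ M.topologicalClosure :=
  Submodule.sub_mem _ (pr_mem M φ) (Submodule.topologicalClosure_mono h (pr_mem K φ))

theorem sub_orth {K M : Submodule ℝ (E G ι)} (h : K ≤ M) (φ : E G ι) {ψ : E G ι} (hψ : ψ ∈ K) :
    ⟪pr M φ - pr K φ, ψ⟫_ℝ = 0 := by
  rw [inner_sub_left, inner_pr_of_mem φ (M.le_topologicalClosure (h hψ)),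
    inner_pr_of_mem φ (K.le_topologicalClosure hψ), sub_self]

end proj

section projG

omit [Fintype ι] [Fintype κ]

theorem pr_eqv {K : Submodule ℝ (E G ι)} (hK : ∀ g φ, φ ∈ K → L g φ ∈ K) : Eqv (pr K) := by
  intro g φ
  have hc : ∀ g φ, φ ∈ K.topologicalClosure → L g φ ∈ K.topologicalClosure := by
    intro g φ hφ
    have h1 : (K.topologicalClosure : Set (E G ι)) ⊆
        (L g) ⁻¹' (K.topologicalClosure : Set (E G ι)) :=
      closure_minimal (fun w hw => K.le_topologicalClosure (hK g w hw))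
        (K.isClosed_topologicalClosure.preimage (L g).continuous)
    exact h1 hφ
  apply pr_unique (hc g _ (pr_mem K φ))
  intro w hw
  rw [← map_sub, ← L_L_inv g w, inner_L]
  exact inner_sub_pr K φ (K.le_topologicalClosure (hK g⁻¹ w hw))

theorem q_inv {K : Submodule ℝ (E G ι)} (hK : ∀ g φ, φ ∈ K → L g φ ∈ K) (x : G) (l : ι) :
    q K x l = q K 1 l := by
  have h := pr_eqv hK x (dl 1 l)
  rw [L_dl, mul_one] at h
  have h2 : dl x l = L x (dl 1 l) := by rw [L_dl, mul_one]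
  rw [q, q, h, h2, inner_L]

end projG

theorem tr_pr (K : Submodule ℝ (E G ι)) : tr (pr K) = ∑ l, q K 1 l := rfl

/-- isomorphic invariant subspaces have the same dimension -/
theorem tr_pr_eq {K : Submodule ℝ (E G ι)} {K' : Submodule ℝ (E G κ)}
    (hK : ∀ g φ, φ ∈ K → L g φ ∈ K) (hK' : ∀ g φ, φ ∈ K' → L g φ ∈ K')
    (A : E G ι →L[ℝ] E G κ) (B : E G κ →L[ℝ] E G ι) (hA : Eqv A) (hB : Eqv B)
    (h1 : ∀ φ ∈ K, A φ ∈ K' ∧ B (A φ) = φ) (h2 : ∀ ψ ∈ K', B ψ ∈ K ∧ A (B ψ) = ψ) :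
    tr (pr K) = tr (pr K') := by
  have c1 : ∀ φ ∈ K.topologicalClosure, A φ ∈ K'.topologicalClosure ∧ B (A φ) = φ := by
    have hc : IsClosed {φ : E G ι | A φ ∈ K'.topologicalClosure ∧ B (A φ) = φ} :=
      (K'.isClosed_topologicalClosure.preimage A.continuous).inter
        (isClosed_eq (B.continuous.comp A.continuous) continuous_id)
    have hs : (K : Set (E G ι)) ⊆ {φ : E G ι | A φ ∈ K'.topologicalClosure ∧ B (A φ) = φ} :=
      fun w hw => ⟨K'.le_topologicalClosure (h1 w hw).1, (h1 w hw).2⟩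
    exact fun φ hφ => closure_minimal hs hc hφ
  have c2 : ∀ φ ∈ K'.topologicalClosure, B φ ∈ K.topologicalClosure ∧ A (B φ) = φ := by
    have hc : IsClosed {φ : E G κ | B φ ∈ K.topologicalClosure ∧ A (B φ) = φ} :=
      (K.isClosed_topologicalClosure.preimage B.continuous).inter
        (isClosed_eq (A.continuous.comp B.continuous) continuous_id)
    have hs : (K' : Set (E G κ)) ⊆ {φ : E G κ | B φ ∈ K.topologicalClosure ∧ A (B φ) = φ} :=
      fun w hw => ⟨K.le_topologicalClosure (h2 w hw).1, (h2 w hw).2⟩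
    exact fun φ hφ => closure_minimal hs hc hφ
  have e1 : (pr K ∘L B ∘L pr K') ∘L (pr K' ∘L A ∘L pr K) = pr K := by
    ext1 φ
    obtain ⟨m1, m2⟩ := c1 _ (pr_mem K φ)
    show pr K (B (pr K' (pr K' (A (pr K φ))))) = pr K φ
    rw [pr_of_mem' m1, pr_of_mem' m1, m2, pr_pr]
  have e2 : (pr K' ∘L A ∘L pr K) ∘L (pr K ∘L B ∘L pr K') = pr K' := by
    ext1 φ
    obtain ⟨m1, m2⟩ := c2 _ (pr_mem K' φ)
    show pr K' (A (pr K (pr K (B (pr K' φ))))) = pr K' φ
    rw [pr_of_mem' m1, pr_of_mem' m1, m2, pr_pr]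
  have hp := pr_eqv hK
  have hp' := pr_eqv hK'
  rw [← e1, tr_comm _ _ (hp.comp (hB.comp hp')) (hp'.comp (hA.comp hp)), e2]

end Pool.Agent.H79.CG
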