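import Mathlib
import Pool.Agent.H79.CG.Tr

/-!
# [H79 CG SP] Spaces of weighted gradients

Labels `ι`, `σ : ι → G`, weights `c : ι → ℝ`; for a space `W` of functions on `G`, `KW W σ c` is the space of all
`φ ∈ ℓ²(G × ι)` with `φ (x, l) = c l (w x - w (x σ l))`, `w ∈ W`. If two sets of labels generate each other, the closures
have the same dimension (word operators).
-/

set_option autoImplicit false

open scoped Classical InnerProductSpace

noncomputable section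

namespace Pool.Agent.H79.CG

universe u

variable {G : Type u} [Group G] {ι κ μ : Type}

/-! ### elementary operators -/

private theorem el_summable [Fintype κ] (a : κ → ℝ) (g : κ → G) (l : κ → ι) (φ : E G ι) :
    HasSum (fun p : G × κ => (a p.2 * φ (p.1 * g p.2, l p.2)) ^ 2)
      (∑ k, a k ^ 2 * ∑' x, φ (x, l k) ^ 2) := by
  have h1 : ∀ k : κ, Summable (fun x : G => φ (x, l k) ^ 2) := fun k =>
    (E_nsq φ).summable.comp_injective (i := fun y : G => (y, l k)) (fun a b hab => congrArg Prod.fst hab)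
  have h2 : ∀ k : κ, HasSum (fun x : G => (a k * φ (x * g k, l k)) ^ 2) (a k ^ 2 * ∑' x, φ (x, l k) ^ 2) := by
    intro k
    have h3 : HasSum (fun x : G => φ (x * g k, l k) ^ 2) (∑' x, φ (x, l k) ^ 2) :=
      ((Equiv.mulRight (g k)).hasSum_iff (f := fun x => φ (x, l k) ^ 2)).2 (h1 k).hasSum
    simpa only [mul_pow] using h3.mul_left (a k ^ 2)
  have h3 : Summable (fun p : κ × G => (a p.1 * φ (p.2 * g p.1, l p.1)) ^ 2) := by
    rw [summable_prod_of_nonneg (fun p => sq_nonneg _)]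
    exact ⟨fun k => (h2 k).summable, Summable.of_finite⟩
  have h4 := h3.hasSum
  rw [h3.tsum_prod, tsum_fintype] at h4
  have h5 : ∑ k, ∑' x, (a k * φ (x * g k, l k)) ^ 2 = ∑ k, a k ^ 2 * ∑' x, φ (x, l k) ^ 2 :=
    Finset.sum_congr rfl fun k _ => (h2 k).tsum_eq
  rw [h5] at h4
  exact ((Equiv.prodComm G κ).hasSum_iff (f := fun p : κ × G => (a p.1 * φ (p.2 * g p.1, l p.1)) ^ 2)).2 h4

/-- an elementary operator, as a linear map -/
private def el0 [Fintype κ] (a : κ → ℝ) (g : κ → G) (l : κ → ι) : E G ι →ₗ[ℝ] E G κ where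
  toFun φ := mk (fun p => a p.2 * φ (p.1 * g p.2, l p.2)) (el_summable a g l φ).summable
  map_add' φ ψ := by
    apply E_ext
    intro p
    show a p.2 * (φ + ψ) (p.1 * g p.2, l p.2) = a p.2 * φ (p.1 * g p.2, l p.2) + a p.2 * ψ (p.1 * g p.2, l p.2)
    rw [lp.coeFn_add, Pi.add_apply, mul_add]
  map_smul' r φ := by
    apply E_ext
    intro p
    show a p.2 * (r • φ) (p.1 * g p.2, l p.2) = r * (a p.2 * φ (p.1 * g p.2, l p.2))
    rw [lp.coeFn_smul, Pi.smul_apply, smul_eq_mul]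
    ring

/-- the elementary operator `φ ↦ a k φ (x g k, l k)` -/
def el [Fintype κ] (a : κ → ℝ) (g : κ → G) (l : κ → ι) : E G ι →L[ℝ] E G κ :=
  (el0 a g l).mkContinuous (∑ k, |a k|) fun φ => by
    have h1 := el_summable a g l φ
    have h2 : ‖el0 a g l φ‖ ^ 2 = ∑ k, a k ^ 2 * ∑' x, φ (x, l k) ^ 2 := (E_nsq (el0 a g l φ)).unique h1
    have h3 : ∀ k, ∑' x, φ (x, l k) ^ 2 ≤ ‖φ‖ ^ 2 := by
      intro k
      have h4 := (E_nsq φ).summable
      have h5 : Summable (fun x : G => φ (x, l k) ^ 2) :=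
        h4.comp_injective (i := fun y : G => (y, l k)) (fun a b hab => congrArg Prod.fst hab)
      rw [← (E_nsq φ).tsum_eq]
      exact h5.tsum_le_tsum_of_inj (fun y : G => (y, l k)) (fun a b hab => congrArg Prod.fst hab)
        (fun p _ => sq_nonneg _) (fun x => le_rfl) h4
    have h4 : ‖el0 a g l φ‖ ^ 2 ≤ ((∑ k, |a k|) * ‖φ‖) ^ 2 := by
      rw [h2, mul_pow]
      calc ∑ k, a k ^ 2 * ∑' x, φ (x, l k) ^ 2 ≤ ∑ k, |a k| ^ 2 * ‖φ‖ ^ 2 := by
            refine Finset.sum_le_sum fun k _ => ?_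
            rw [sq_abs]
            exact mul_le_mul_of_nonneg_left (h3 k) (sq_nonneg _)
        _ = (∑ k, |a k| ^ 2) * ‖φ‖ ^ 2 := by rw [Finset.sum_mul]
        _ ≤ (∑ k, |a k|) ^ 2 * ‖φ‖ ^ 2 := by
            refine mul_le_mul_of_nonneg_right ?_ (sq_nonneg _)
            rw [sq (∑ k, |a k|), Finset.sum_mul]
            refine Finset.sum_le_sum fun k _ => ?_
            rw [sq]
            exact mul_le_mul_of_nonneg_left
              (Finset.single_le_sum (f := fun k => |a k|) (fun k _ => abs_nonneg _) (Finset.mem_univ k)) (abs_nonneg _)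
    exact le_of_sq_le_sq h4 (mul_nonneg (Finset.sum_nonneg fun k _ => abs_nonneg _) (norm_nonneg _))

theorem el_apply [Fintype κ] (a : κ → ℝ) (g : κ → G) (l : κ → ι) (φ : E G ι) (x : G) (k : κ) :
    el a g l φ (x, k) = a k * φ (x * g k, l k) := rfl

theorem el_eqv [Fintype κ] (a : κ → ℝ) (g : κ → G) (l : κ → ι) : Eqv (el a g l) := by
  intro h φ
  apply E_ext
  rintro ⟨x, k⟩
  rw [el_apply, L_apply, L_apply, el_apply, mul_assoc]

/-! ### word operators -/

/-- `φ` is the gradient of `w`, with weights `c` -/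
def Gr (σ : ι → G) (c : ι → ℝ) (w : G → ℝ) (φ : E G ι) : Prop :=
  ∀ x l, φ (x, l) = c l * (w x - w (x * σ l))

/-- an operator which computes the increments `w x - w (x g)` from the gradient of `w` -/
theorem exists_path (σ : ι → G) (g : G) (hg : g ∈ Subgroup.closure (Set.range σ)) :
    ∃ Z : E G ι →L[ℝ] E G Unit, Eqv Z ∧ ∀ φ w, Gr σ 1 w φ → ∀ x, Z φ (x, ()) = w x - w (x * g) := by
  refine Subgroup.closure_induction (p := fun g _ => ∃ Z : E G ι →L[ℝ] E G Unit, Eqv Z ∧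
    ∀ φ w, Gr σ 1 w φ → ∀ x, Z φ (x, ()) = w x - w (x * g)) ?_ ?_ ?_ ?_ hg
  · rintro _ ⟨l, rfl⟩
    refine ⟨el (fun _ => 1) (fun _ => 1) (fun _ => l), el_eqv _ _ _, fun φ w hφ x => ?_⟩
    rw [el_apply, mul_one, one_mul, hφ x l, Pi.one_apply, one_mul]
  · refine ⟨0, Eqv.zero, fun φ w hφ x => ?_⟩
    rw [mul_one, sub_self]
    rfl
  · rintro g h - - ⟨A, hA, hA'⟩ ⟨B, hB, hB'⟩
    refine ⟨A + el (fun _ => 1) (fun _ => g) (fun l => l) ∘L B, hA.add ((el_eqv _ _ _).comp hB), fun φ w hφ x => ?_⟩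
    show A φ (x, ()) + el (fun _ => 1) (fun _ => g) (fun l => l) (B φ) (x, ()) = _
    rw [el_apply, one_mul, hA' φ w hφ, hB' φ w hφ, mul_assoc]
    ring
  · rintro g - ⟨A, hA, hA'⟩
    refine ⟨el (fun _ => -1) (fun _ => g⁻¹) (fun l => l) ∘L A, (el_eqv _ _ _).comp hA, fun φ w hφ x => ?_⟩
    show el (fun _ => -1) (fun _ => g⁻¹) (fun l => l) (A φ) (x, ()) = _
    rw [el_apply, hA' φ w hφ, inv_mul_cancel_right]
    ring

/-- word operators -/
theorem exists_word [Fintype ι] [Fintype κ] (σ : ι → G) (c : ι → ℝ) (hc : ∀ l, c l ≠ 0) (τ : κ → G) (d : κ → ℝ)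
    (hτ : ∀ k, τ k ∈ Subgroup.closure (Set.range σ)) :
    ∃ A : E G ι →L[ℝ] E G κ, Eqv A ∧ ∀ φ w, Gr σ c w φ → Gr τ d w (A φ) := by
  choose Z hZ hZ' using fun k => exists_path σ (τ k) (hτ k)
  refine ⟨(∑ k : κ, el (fun k' => if k' = k then d k else 0) (fun _ => 1) (fun _ => ()) ∘L Z k) ∘L
    el (fun l => (c l)⁻¹) (fun _ => 1) (fun l => l), ?_, ?_⟩
  · refine Eqv.comp ?_ (el_eqv _ _ _)
    intro g φ
    rw [_root_.sum_apply, _root_.sum_apply, map_sum]
    refine Finset.sum_congr rfl fun k _ => ?_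
    exact ((el_eqv _ _ _).comp (hZ k)) g φ
  · intro φ w hφ x k
    have h1 : Gr σ 1 w (el (fun l => (c l)⁻¹) (fun _ => 1) (fun l => l) φ) := by
      intro x l
      rw [el_apply, mul_one, hφ x l, Pi.one_apply, one_mul, inv_mul_cancel_left₀ (hc l)]
    have h2 : ∀ (ψ : E G ι), (∑ k : κ, el (fun k' => if k' = k then d k else 0) (fun _ => 1) (fun _ => ()) ∘L Z k) ψ
        (x, k) = ∑ k' : κ, (el (fun k'' => if k'' = k' then d k' else 0) (fun _ => (1 : G)) (fun _ => ()) (Z k' ψ))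
          (x, k) := by
      intro ψ
      rw [_root_.sum_apply, lp.coeFn_sum, Finset.sum_apply]
      rfl
    rw [ContinuousLinearMap.comp_apply, h2]
    rw [Finset.sum_eq_single k]
    · rw [el_apply, if_pos rfl, mul_one, hZ' k _ w h1 x]
    · intro k' _ hk'
      rw [el_apply, if_neg (fun h => hk' h.symm), zero_mul]
    · intro h
      exact absurd (Finset.mem_univ k) h

/-! ### the spaces -/

/-- the space of the gradients of the functions in `W` -/
def KW (W : Submodule ℝ (G → ℝ)) (σ : ι → G) (c : ι → ℝ) : Submodule ℝ (E G ι) where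
  carrier := {φ | ∃ w ∈ W, Gr σ c w φ}
  zero_mem' := ⟨0, W.zero_mem, fun x l => by
    rw [lp.coeFn_zero, Pi.zero_apply, Pi.zero_apply, Pi.zero_apply, sub_self, mul_zero]⟩
  add_mem' := by
    rintro φ ψ ⟨v, hv, hφ⟩ ⟨w, hw, hψ⟩
    refine ⟨v + w, W.add_mem hv hw, fun x l => ?_⟩
    rw [lp.coeFn_add, Pi.add_apply, hφ x l, hψ x l, Pi.add_apply, Pi.add_apply]
    ring
  smul_mem' := by
    rintro r φ ⟨v, hv, hφ⟩
    refine ⟨r • v, W.smul_mem r hv, fun x l => ?_⟩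
    rw [lp.coeFn_smul, Pi.smul_apply, hφ x l, Pi.smul_apply, Pi.smul_apply, smul_eq_mul, smul_eq_mul, smul_eq_mul]
    ring

theorem mem_KW {W : Submodule ℝ (G → ℝ)} {σ : ι → G} {c : ι → ℝ} {φ : E G ι} :
    φ ∈ KW W σ c ↔ ∃ w ∈ W, Gr σ c w φ := Iff.rfl

/-- `W` is invariant -/
def Inv (W : Submodule ℝ (G → ℝ)) : Prop := ∀ (g : G) (w : G → ℝ), w ∈ W → (fun x => w (g⁻¹ * x)) ∈ W

theorem KW_inv {W : Submodule ℝ (G → ℝ)} (hW : Inv W) (σ : ι → G) (c : ι → ℝ) (g : G) (φ : E G ι)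
    (hφ : φ ∈ KW W σ c) : L g φ ∈ KW W σ c := by
  obtain ⟨w, hw, h⟩ := hφ
  refine ⟨_, hW g w hw, fun x l => ?_⟩
  rw [L_apply, h, mul_assoc]

/-- the dimension depends on the generated subgroup only -/
theorem tr_KW [Fintype ι] [Fintype κ] {W : Submodule ℝ (G → ℝ)} (hW : Inv W) (σ : ι → G) (c : ι → ℝ)
    (hc : ∀ l, c l ≠ 0) (τ : κ → G) (d : κ → ℝ) (hd : ∀ k, d k ≠ 0)
    (hτ : ∀ k, τ k ∈ Subgroup.closure (Set.range σ)) (hσ : ∀ l, σ l ∈ Subgroup.closure (Set.range τ)) :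
    ∑ l, q (KW W σ c) 1 l = ∑ k, q (KW W τ d) 1 k := by
  obtain ⟨A, hA, hA'⟩ := exists_word σ c hc τ d hτ
  obtain ⟨B, hB, hB'⟩ := exists_word τ d hd σ c hσ
  rw [← tr_pr, ← tr_pr]
  refine tr_pr_eq (KW_inv hW σ c) (KW_inv hW τ d) A B hA hB ?_ ?_
  · rintro φ ⟨w, hw, h⟩
    refine ⟨⟨w, hw, hA' φ w h⟩, E_ext ?_⟩
    rintro ⟨x, l⟩
    rw [hB' _ w (hA' φ w h) x l, h x l]
  · rintro φ ⟨w, hw, h⟩
    refine ⟨⟨w, hw, hB' φ w h⟩, E_ext ?_⟩
    rintro ⟨x, l⟩
    rw [hA' _ w (hB' φ w h) x l, h x l]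

/-- a path bound -/
theorem exists_bound (τ : κ → G) (g : G) (hg : g ∈ Subgroup.closure (Set.range τ)) :
    ∃ C : ℝ, 0 ≤ C ∧ ∀ (φ : E G κ) (w : G → ℝ), Gr τ 1 w φ → ∀ x, |w x - w (x * g)| ≤ C * ‖φ‖ := by
  obtain ⟨A, -, hA⟩ := exists_path τ g hg
  refine ⟨‖A‖, norm_nonneg _, fun φ w hφ x => ?_⟩
  rw [← hA φ w hφ x, ← Real.norm_eq_abs]
  exact (lp.norm_apply_le_norm (by norm_num) (A φ) (x, ())).trans (A.le_opNorm φ)

/-! ### the two spaces of functions -/

/-- the finitely supported functions -/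
def WN (G : Type u) : Submodule ℝ (G → ℝ) where
  carrier := {w | (Function.support w).Finite}
  zero_mem' := by simp
  add_mem' := by
    intro v w hv hw
    exact (hv.union hw).subset (Function.support_add v w)
  smul_mem' := by
    intro r v hv
    exact hv.subset (Function.support_const_smul_subset r v)

theorem top_inv : Inv (⊤ : Submodule ℝ (G → ℝ)) := fun _ _ _ => Submodule.mem_top

theorem WN_inv : Inv (WN G) := by
  intro g w hw
  have h1 : (fun x => w (g⁻¹ * x)) = w ∘ (Equiv.mulLeft g⁻¹) := rfl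
  show (Function.support _).Finite
  rw [h1, Function.support_comp_eq_preimage]
  exact hw.preimage (Equiv.injective _).injOn

theorem KW_le (σ : ι → G) (c : ι → ℝ) : KW (WN G) σ c ≤ KW ⊤ σ c := by
  rintro φ ⟨w, -, h⟩
  exact ⟨w, Submodule.mem_top, h⟩

/-- the dimension of the space of harmonic gradients -/
def bt [Fintype ι] (σ : ι → G) : ℝ := ∑ l, (q (KW ⊤ σ 1) 1 l - q (KW (WN G) σ 1) 1 l)

end Pool.Agent.H79.CG
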