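import Mathlib
import Pool.Agent.H79.CG.Sp
import Pool.Agent.H79.CG.Rank
import Pool.Agent.H79.CG.Defs

/-!
# [H79 CG LIM] The count of cosets

Labels `σ` (weight `ε`) and `τ` (weight `1`), where `τ` generates the subgroup `H`. As `ε → 0` the potentials of the unit
vectors become constant on the cosets of `H`, and the labels `σ` keep a total diagonal of at least `bt σ - bt τ`.
-/

set_option autoImplicit false

open scoped Classical InnerProductSpace Topology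

noncomputable section

namespace Pool.Agent.H79.CG

universe u

variable {G : Type u} [Group G] {ι κ : Type} [Fintype ι] [Fintype κ]

/-- the weights -/
def J (ι κ : Type) (ε : ℝ) : ι ⊕ κ → ℝ := Sum.elim (fun _ => ε) (fun _ => 1)

/-- the two restrictions -/
def Rl : E G (ι ⊕ κ) →L[ℝ] E G ι := el (fun _ => 1) (fun _ => 1) Sum.inl

/-- the two restrictions -/
def Rr : E G (ι ⊕ κ) →L[ℝ] E G κ := el (fun _ => 1) (fun _ => 1) Sum.inr

omit [Fintype κ] in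
theorem Rl_apply (φ : E G (ι ⊕ κ)) (x : G) (l : ι) : Rl φ (x, l) = φ (x, Sum.inl l) := by
  rw [Rl, el_apply, one_mul, mul_one]

omit [Fintype ι] in
theorem Rr_apply (φ : E G (ι ⊕ κ)) (x : G) (l : κ) : Rr φ (x, l) = φ (x, Sum.inr l) := by
  rw [Rr, el_apply, one_mul, mul_one]

theorem norm_split (φ : E G (ι ⊕ κ)) : ‖φ‖ ^ 2 = ‖Rl φ‖ ^ 2 + ‖Rr φ‖ ^ 2 := by
  have h1 := E_nsq (Rl (G := G) (ι := ι) (κ := κ) φ)
  have h2 := E_nsq (Rr (G := G) (ι := ι) (κ := κ) φ)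
  have h3 : HasSum (fun z : (G × ι) ⊕ (G × κ) => φ ((Equiv.prodSumDistrib G ι κ).symm z) ^ 2)
      (‖Rl φ‖ ^ 2 + ‖Rr φ‖ ^ 2) := by
    refine HasSum.sum ?_ ?_
    · have e : ((fun z : (G × ι) ⊕ (G × κ) => φ ((Equiv.prodSumDistrib G ι κ).symm z) ^ 2) ∘ Sum.inl) =
          fun p : G × ι => Rl φ p ^ 2 := by
        funext p
        obtain ⟨x, l⟩ := p
        rw [Rl_apply]
        rfl
      rw [e]
      exact h1
    · have e : ((fun z : (G × ι) ⊕ (G × κ) => φ ((Equiv.prodSumDistrib G ι κ).symm z) ^ 2) ∘ Sum.inr) =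
          fun p : G × κ => Rr φ p ^ 2 := by
        funext p
        obtain ⟨x, l⟩ := p
        rw [Rr_apply]
        rfl
      rw [e]
      exact h2
  have h4 := ((Equiv.prodSumDistrib G ι κ).symm.hasSum_iff (f := fun p => φ p ^ 2)).1 h3
  exact (E_nsq φ).unique h4

theorem norm_Rr_le (φ : E G (ι ⊕ κ)) : ‖Rr φ‖ ≤ ‖φ‖ := by
  have h := norm_split φ
  exact le_of_sq_le_sq (by nlinarith [sq_nonneg ‖Rl (G := G) (ι := ι) (κ := κ) φ‖]) (norm_nonneg _)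

/-- finitely supported functions have gradients -/
theorem exists_gr (σ : ι → G) (c : ι → ℝ) {w : G → ℝ} (hw : w ∈ WN G) : ∃ φ : E G ι, Gr σ c w φ := by
  have h1 : Summable fun p : G × ι => (c p.2 * (w p.1 - w (p.1 * σ p.2))) ^ 2 := by
    refine summable_of_hasFiniteSupport ?_
    have h2 : (Function.support w).Finite := hw
    have h3 : ({p : G × ι | p.1 ∈ Function.support w}).Finite := by
      have h4 : {p : G × ι | p.1 ∈ Function.support w} = (Function.support w) ×ˢ (Set.univ : Set ι) := by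
        ext p
        simp
      rw [h4]
      exact h2.prod Set.finite_univ
    have h5 : ({p : G × ι | p.1 * σ p.2 ∈ Function.support w}).Finite := by
      have h6 := h3.preimage (f := fun p : G × ι => (p.1 * σ p.2, p.2)) (by
        rintro ⟨x, l⟩ - ⟨y, k⟩ - h
        have h7 : x * σ l = y * σ k := congrArg Prod.fst h
        have h8 : l = k := congrArg Prod.snd h
        rw [h8] at h7 ⊢
        rw [mul_right_cancel h7])
      exact h6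
    refine (h3.union h5).subset ?_
    intro p hp
    rw [Function.mem_support] at hp
    by_contra hcon
    rw [Set.mem_union, not_or, Set.mem_ofPred_eq, Set.mem_ofPred_eq, Function.mem_support, Function.mem_support,
      not_not, not_not] at hcon
    apply hp
    rw [hcon.1, hcon.2, sub_self, mul_zero]
    norm_num
  exact ⟨mk _ h1, fun x l => rfl⟩

variable (σ : ι → G) (τ : κ → G)

theorem tr_sum {W : Submodule ℝ (G → ℝ)} (hW : Inv W) (hτ : ∀ k, τ k ∈ Subgroup.closure (Set.range σ)) {ε : ℝ}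
    (hε : ε ≠ 0) : ∑ l, q (KW W (Sum.elim σ τ) (J ι κ ε)) 1 (Sum.inl l) +
      ∑ k, q (KW W (Sum.elim σ τ) (J ι κ ε)) 1 (Sum.inr k) = ∑ l, q (KW W σ 1) 1 l := by
  rw [← Fintype.sum_sum_type (fun l => q (KW W (Sum.elim σ τ) (J ι κ ε)) 1 l)]
  refine tr_KW hW _ _ ?_ _ _ (fun k => by rw [Pi.one_apply]; exact one_ne_zero) ?_ ?_
  · rintro (l | k)
    · exact hε
    · exact one_ne_zero
  · intro l
    exact Subgroup.subset_closure ⟨Sum.inl l, rfl⟩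
  · rintro (l | k)
    · exact Subgroup.subset_closure ⟨l, rfl⟩
    · exact hτ k

omit [Fintype ι] in
theorem Gr_Rr {ε : ℝ} {w : G → ℝ} {φ : E G (ι ⊕ κ)} (h : Gr (Sum.elim σ τ) (J ι κ ε) w φ) : Gr τ 1 w (Rr φ) := by
  intro x k
  rw [Rr_apply, h x (Sum.inr k)]
  rfl

/-- compression to the labels `τ` -/
theorem q_inr_le (W : Submodule ℝ (G → ℝ)) (ε : ℝ) (k : κ) :
    q (KW W (Sum.elim σ τ) (J ι κ ε)) 1 (Sum.inr k) ≤ q (KW W τ 1) 1 k := by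
  obtain ⟨K, hK⟩ : ∃ K, K = KW W (Sum.elim σ τ) (J ι κ ε) := ⟨_, rfl⟩
  rw [← hK]
  have h1 := pr_mem K (dl 1 (Sum.inr k))
  obtain ⟨φ, hφ⟩ : ∃ φ, φ = pr K (dl 1 (Sum.inr k)) := ⟨_, rfl⟩
  rw [← hφ] at h1
  have h2 : Rr φ ∈ (KW W τ 1).topologicalClosure := by
    have h3 : (K.topologicalClosure : Set (E G (ι ⊕ κ))) ⊆ Rr ⁻¹' ((KW W τ 1).topologicalClosure : Set (E G κ)) := by
      refine closure_minimal (fun ψ hψ => ?_)
        ((KW W τ 1).isClosed_topologicalClosure.preimage (Rr (G := G) (ι := ι) (κ := κ)).continuous)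
      rw [hK] at hψ
      obtain ⟨w, hw, h⟩ := hψ
      exact (KW W τ 1).le_topologicalClosure ⟨w, hw, Gr_Rr σ τ h⟩
    exact h3 h1
  have h3 := sq_le_q h2 1 k
  rw [Rr_apply] at h3
  have h4 : φ (1, Sum.inr k) = q K 1 (Sum.inr k) := by rw [q_eq_apply, hφ]
  have h5 : ‖Rr φ‖ ^ 2 ≤ q K 1 (Sum.inr k) := by
    rw [q_eq_norm_sq, ← hφ]
    exact pow_le_pow_left₀ (norm_nonneg _) (norm_Rr_le φ) 2
  rw [h4] at h3
  have h6 := q_nonneg K 1 (Sum.inr k)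
  have h7 := q_nonneg (KW W τ 1) 1 k
  rcases h6.eq_or_lt with h8 | h8
  · rw [← h8]
    exact h7
  · have h9 : q K 1 (Sum.inr k) ^ 2 ≤ q K 1 (Sum.inr k) * q (KW W τ 1) 1 k :=
      h3.trans (mul_le_mul_of_nonneg_right h5 h7)
    rw [sq] at h9
    exact le_of_mul_le_mul_left h9 h8

/-- semicontinuity -/
theorem lt_q_inr (k : κ) {t : ℝ} (ht : t < q (KW (WN G) τ 1) 1 k) :
    ∀ᶠ ε in 𝓝[>] (0 : ℝ), t < q (KW (WN G) (Sum.elim σ τ) (J ι κ ε)) 1 (Sum.inr k) := by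
  rcases lt_or_ge t 0 with h0 | h0
  · exact Filter.Eventually.of_forall fun ε => h0.trans_le (q_nonneg _ _ _)
  obtain ⟨φ, ⟨w, hw, hφ⟩, h1⟩ := exists_of_lt_q h0 ht
  obtain ⟨ψ, hψ⟩ := exists_gr σ 1 hw
  have h2 : ∀ᶠ ε in 𝓝[>] (0 : ℝ), t * (ε ^ 2 * ‖ψ‖ ^ 2 + ‖φ‖ ^ 2) < φ (1, k) ^ 2 := by
    have h3 : Filter.Tendsto (fun ε : ℝ => t * (ε ^ 2 * ‖ψ‖ ^ 2 + ‖φ‖ ^ 2)) (𝓝[>] 0)
        (𝓝 (t * ((0 : ℝ) ^ 2 * ‖ψ‖ ^ 2 + ‖φ‖ ^ 2))) := by
      refine Filter.Tendsto.mono_left ?_ nhdsWithin_le_nhds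
      exact ((continuous_const.mul (((continuous_pow 2).mul continuous_const).add continuous_const)).tendsto 0)
    refine h3.eventually_lt_const ?_
    rw [zero_pow (by norm_num), zero_mul, zero_add]
    exact h1
  filter_upwards [h2] with ε h3
  obtain ⟨χ, hχ⟩ := exists_gr (Sum.elim σ τ) (J ι κ ε) hw
  have e1 : Rl χ = ε • ψ := by
    apply E_ext
    rintro ⟨x, l⟩
    rw [Rl_apply, hχ x (Sum.inl l), lp.coeFn_smul, Pi.smul_apply, hψ x l, Pi.one_apply, one_mul]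
    rfl
  have e2 : Rr χ = φ := by
    apply E_ext
    rintro ⟨x, l⟩
    rw [Rr_apply, hχ x (Sum.inr l), hφ x l]
    rfl
  have e3 : ‖χ‖ ^ 2 = ε ^ 2 * ‖ψ‖ ^ 2 + ‖φ‖ ^ 2 := by
    rw [norm_split, e1, e2, norm_smul, mul_pow, Real.norm_eq_abs, sq_abs]
  have h4 := sq_le_q ((KW (WN G) (Sum.elim σ τ) (J ι κ ε)).le_topologicalClosure ⟨w, hw, hχ⟩) 1 (Sum.inr k)
  rw [e3, ← Rr_apply χ, e2] at h4
  have h5 : t * (ε ^ 2 * ‖ψ‖ ^ 2 + ‖φ‖ ^ 2) <
      (ε ^ 2 * ‖ψ‖ ^ 2 + ‖φ‖ ^ 2) * q (KW (WN G) (Sum.elim σ τ) (J ι κ ε)) 1 (Sum.inr k) := h3.trans_le h4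
  rw [mul_comm t] at h5
  exact lt_of_mul_lt_mul_left h5 (by positivity)

theorem tr_N_le (hτ : ∀ k, τ k ∈ Subgroup.closure (Set.range σ)) :
    ∑ k, q (KW (WN G) τ 1) 1 k ≤ ∑ l, q (KW (WN G) σ 1) 1 l := by
  refine le_of_forall_pos_le_add fun η hη => ?_
  obtain ⟨θ, hθ, hθ'⟩ : ∃ θ : ℝ, 0 < θ ∧ (Fintype.card κ : ℝ) * θ ≤ η := by
    refine ⟨η / (Fintype.card κ + 1), by positivity, ?_⟩
    rw [mul_div_assoc', div_le_iff₀ (by positivity)]
    nlinarith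
  have h1 : ∀ᶠ ε in 𝓝[>] (0 : ℝ), ∀ k, q (KW (WN G) τ 1) 1 k - θ <
      q (KW (WN G) (Sum.elim σ τ) (J ι κ ε)) 1 (Sum.inr k) :=
    Filter.eventually_all.2 fun k => lt_q_inr σ τ k (by linarith)
  obtain ⟨ε, h2, hε⟩ := (h1.and self_mem_nhdsWithin).exists
  have hε' : (0 : ℝ) < ε := hε
  have h3 := tr_sum σ τ WN_inv hτ hε'.ne'
  have h4 : ∑ k, (q (KW (WN G) τ 1) 1 k - θ) ≤ ∑ k, q (KW (WN G) (Sum.elim σ τ) (J ι κ ε)) 1 (Sum.inr k) :=
    Finset.sum_le_sum fun k _ => (h2 k).le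
  rw [Finset.sum_sub_distrib, Finset.sum_const, Finset.card_univ, nsmul_eq_mul] at h4
  have h5 : 0 ≤ ∑ l, q (KW (WN G) (Sum.elim σ τ) (J ι κ ε)) 1 (Sum.inl l) :=
    Finset.sum_nonneg fun l _ => q_nonneg _ _ _
  linarith

/-- the labels `σ` keep a total diagonal of at least `bt σ - bt τ` -/
theorem le_sum_inl (hτ : ∀ k, τ k ∈ Subgroup.closure (Set.range σ)) {ε : ℝ} (hε : ε ≠ 0) :
    bt σ - bt τ ≤ ∑ l, q (KW ⊤ (Sum.elim σ τ) (J ι κ ε)) 1 (Sum.inl l) := by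
  have h1 := tr_sum σ τ top_inv hτ hε
  have h2 : ∑ k, q (KW ⊤ (Sum.elim σ τ) (J ι κ ε)) 1 (Sum.inr k) ≤ ∑ k, q (KW ⊤ τ 1) 1 k :=
    Finset.sum_le_sum fun k _ => q_inr_le σ τ ⊤ ε k
  have h3 := tr_N_le σ τ hτ
  rw [bt, bt, Finset.sum_sub_distrib, Finset.sum_sub_distrib]
  linarith

end Pool.Agent.H79.CG
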