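import Pool.Agent.H79.CG.Bt
import Pool.Agent.H59.CG.Mass

/-!
# [H79 CG GROWTH] Growth of a group with harmonic functions of finite energy

`rank_pairs`: the rank bound for a finite set of pairs (element, label); `count_le`: `D |A| ≤ |A ∪ A S|` for all
finite `A`; `growth`: the balls grow at least like `(1 + bt) ^ n`.
-/

set_option autoImplicit false

open scoped Classical InnerProductSpace Pointwise

noncomputable section

namespace Pool.Agent.H79.CG

universe u

/-! ### rank bound for pairs -/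

section pairs

variable {G : Type u} {ι : Type}

/-- restriction to a finite set of pairs -/
private def Rq (B : Finset (G × ι)) (φ : E G ι) : EuclideanSpace ℝ B :=
  WithLp.toLp 2 fun p => φ p.1

private theorem Rq_apply (B : Finset (G × ι)) (φ : E G ι) (p : B) : Rq B φ p = φ p.1 := rfl

private theorem Rq_cont (B : Finset (G × ι)) : Continuous (Rq B : E G ι → EuclideanSpace ℝ B) := by
  refine (PiLp.continuous_toLp 2 _).comp (continuous_pi fun p => ?_)
  have h : (fun φ : E G ι => φ p.1) = fun φ => ⟪φ, dl p.1.1 p.1.2⟫_ℝ :=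
    funext fun φ => (inner_dl φ _ _).symm
  rw [h]
  exact continuous_id.inner continuous_const

private theorem inner_star' {F : Type*} [NormedAddCommGroup F] [InnerProductSpace ℝ F]
    (V : Submodule ℝ F) [V.HasOrthogonalProjection] (x : F) :
    ⟪x, V.starProjection x⟫_ℝ = ‖V.starProjection x‖ ^ 2 := by
  have h := V.starProjection_inner_eq_zero x (V.starProjection x)
    (V.starProjection_apply_mem x)
  rw [inner_sub_left, sub_eq_zero] at h
  rw [h, real_inner_self_eq_norm_sq]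

private theorem sum_proj' {B : Finset (G × ι)} (V : Submodule ℝ (EuclideanSpace ℝ B)) :
    ∑ p : B, ‖V.starProjection (EuclideanSpace.basisFun B ℝ p)‖ ^ 2 =
      (Module.finrank ℝ V : ℝ) := by
  have h1 : LinearMap.IsProj V (V.starProjection : EuclideanSpace ℝ B →ₗ[ℝ] EuclideanSpace ℝ B) :=
    ⟨fun x => V.starProjection_apply_mem x, fun x hx => Submodule.starProjection_eq_self_iff.2 hx⟩
  rw [← h1.trace, LinearMap.trace_eq_sum_inner _ (EuclideanSpace.basisFun B ℝ)]
  refine Finset.sum_congr rfl fun a _ => ?_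
  exact (inner_star' V _).symm

/-- extension by zero from a finite set of pairs -/
private def Eq' (B : Finset (G × ι)) (v : EuclideanSpace ℝ B) : E G ι :=
  ∑ p : B, v p • dl p.1.1 p.1.2

private theorem inner_Eq' (B : Finset (G × ι)) (v : EuclideanSpace ℝ B) (φ : E G ι) :
    ⟪φ, Eq' B v⟫_ℝ = ⟪Rq B φ, v⟫_ℝ := by
  rw [Eq', inner_sum, PiLp.inner_apply]
  refine Finset.sum_congr rfl fun p _ => ?_
  rw [real_inner_smul_right, inner_dl, Rq_apply]
  simp

private theorem Rq_Eq' (B : Finset (G × ι)) (v : EuclideanSpace ℝ B) : Rq B (Eq' B v) = v := by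
  ext b
  rw [Rq_apply]
  have h0 : Eq' B v b.1 = ⟪Eq' B v, dl b.1.1 b.1.2⟫_ℝ := (inner_dl _ _ _).symm
  rw [h0, Eq', sum_inner, Finset.sum_eq_single b]
  · rw [real_inner_smul_left, inner_dl, dl_apply, if_pos ⟨rfl, rfl⟩, mul_one]
  · intro a _ hab
    rw [real_inner_smul_left, inner_dl, dl_apply, if_neg, mul_zero]
    intro he
    exact hab (Subtype.ext (Prod.ext he.1.symm he.2.symm))
  · intro hb
    exact absurd (Finset.mem_univ _) hb

private theorem norm_Eq' (B : Finset (G × ι)) (v : EuclideanSpace ℝ B) : ‖Eq' B v‖ = ‖v‖ := by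
  have h : ‖Eq' B v‖ ^ 2 = ‖v‖ ^ 2 := by
    rw [← real_inner_self_eq_norm_sq, inner_Eq', Rq_Eq', real_inner_self_eq_norm_sq]
  exact (sq_eq_sq₀ (norm_nonneg _) (norm_nonneg _)).1 h

/-- the rank bound for a finite set of pairs -/
theorem rank_pairs {N : Type*} [Fintype N] (T : (N → ℝ) →ₗ[ℝ] (G × ι → ℝ)) (K : Submodule ℝ (E G ι))
    (B : Finset (G × ι)) (h : ∀ φ ∈ K, ∃ c : N → ℝ, ∀ p ∈ B, φ p = T c p) :
    ∑ p ∈ B, q K p.1 p.2 ≤ Fintype.card N := by
  let T' : (N → ℝ) →ₗ[ℝ] EuclideanSpace ℝ B :=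
    { toFun := fun c => WithLp.toLp 2 fun p : B => T c p.1
      map_add' := fun c d => by
        rw [map_add]
        rfl
      map_smul' := fun r c => by
        rw [map_smul]
        rfl }
  obtain ⟨V, hVdef⟩ : ∃ V : Submodule ℝ (EuclideanSpace ℝ B), V = LinearMap.range T' := ⟨_, rfl⟩
  have hV : Module.finrank ℝ V ≤ Fintype.card N := by
    have h1 := LinearMap.finrank_range_le T'
    rw [Module.finrank_fintype_fun_eq_card] at h1
    rw [hVdef]
    exact h1
  have hcl : ∀ φ ∈ K.topologicalClosure, Rq B φ ∈ V := by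
    intro φ hφ
    have hc : IsClosed {φ : E G ι | Rq B φ ∈ V} :=
      (Submodule.closed_of_finiteDimensional V).preimage (Rq_cont B)
    have hs : (K : Set (E G ι)) ⊆ {φ : E G ι | Rq B φ ∈ V} := by
      intro ψ hψ
      obtain ⟨c, hc⟩ := h ψ hψ
      show Rq B ψ ∈ V
      rw [hVdef]
      refine ⟨c, ?_⟩
      ext p
      exact (hc p.1 p.2).symm
    exact closure_minimal hs hc hφ
  have key : ∀ p : B, q K p.1.1 p.1.2 ≤ ‖V.starProjection (EuclideanSpace.basisFun B ℝ p)‖ ^ 2 := by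
    intro p
    set e : EuclideanSpace ℝ B := EuclideanSpace.basisFun B ℝ p with he
    set r : ℝ := ‖pr K (dl p.1.1 p.1.2)‖ with hr
    have hr0 : 0 ≤ r := norm_nonneg _
    have hq : q K p.1.1 p.1.2 = r ^ 2 := q_eq_norm_sq K _ _
    have h1 : q K p.1.1 p.1.2 = ⟪Rq B (pr K (dl p.1.1 p.1.2)), e⟫_ℝ := by
      rw [q, inner_dl, real_inner_comm, he, EuclideanSpace.basisFun_apply,
        EuclideanSpace.inner_single_left]
      simp [Rq_apply]
    have h2 : q K p.1.1 p.1.2 ≤ r * ‖V.starProjection e‖ := by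
      rw [h1]
      have h3 : Rq B (pr K (dl p.1.1 p.1.2)) = V.starProjection (Rq B (pr K (dl p.1.1 p.1.2))) :=
        (Submodule.starProjection_eq_self_iff.2 (hcl _ (pr_mem K _))).symm
      rw [h3, V.starProjection_isSymmetric.apply_clm, ← inner_Eq']
      calc ⟪pr K (dl p.1.1 p.1.2), Eq' B (V.starProjection e)⟫_ℝ
          ≤ ‖pr K (dl p.1.1 p.1.2)‖ * ‖Eq' B (V.starProjection e)‖ := real_inner_le_norm _ _
        _ = r * ‖V.starProjection e‖ := by rw [norm_Eq']
    have h4 : r ≤ ‖V.starProjection e‖ := by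
      rcases hr0.eq_or_lt with h6 | h6
      · rw [← h6]
        exact norm_nonneg _
      · rw [hq, sq] at h2
        exact le_of_mul_le_mul_left h2 h6
    rw [hq]
    exact pow_le_pow_left₀ hr0 h4 2
  calc ∑ p ∈ B, q K p.1 p.2 = ∑ p : B, q K p.1.1 p.1.2 := (Finset.sum_coe_sort B fun p => q K p.1 p.2).symm
    _ ≤ ∑ p : B, ‖V.starProjection (EuclideanSpace.basisFun B ℝ p)‖ ^ 2 :=
        Finset.sum_le_sum fun p _ => key p
    _ = (Module.finrank ℝ V : ℝ) := sum_proj' V
    _ ≤ Fintype.card N := by exact_mod_cast hV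

end pairs

/-! ### the count -/

variable {G : Type u} [Group G] {ι : Type} [Fintype ι]

/-- the endpoints of the edges which start in `A` -/
def nb (σ : ι → G) (A : Finset G) : Finset G := A ∪ (A ×ˢ Finset.univ).image fun p : G × ι => p.1 * σ p.2

/-- the dimension of the space of gradients, times `|A|`, is at most the number of endpoints -/
theorem count_le (W : Submodule ℝ (G → ℝ)) (hW : Inv W) (σ : ι → G) (A : Finset G) :
    (∑ l, q (KW W σ 1) 1 l) * A.card ≤ (nb σ A).card := by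
  let ex : (nb σ A → ℝ) → G → ℝ := fun c x => if h : x ∈ nb σ A then c ⟨x, h⟩ else 0
  let T : (nb σ A → ℝ) →ₗ[ℝ] (G × ι → ℝ) :=
    { toFun := fun c p => ex c p.1 - ex c (p.1 * σ p.2)
      map_add' := fun c d => by
        funext p
        simp only [ex, Pi.add_apply]
        split_ifs <;> ring
      map_smul' := fun r c => by
        funext p
        simp only [ex, Pi.smul_apply, smul_eq_mul, RingHom.id_apply]
        split_ifs <;> ring }
  have h := rank_pairs T (KW W σ 1) (A ×ˢ Finset.univ) (by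
    rintro φ ⟨w, -, hw⟩
    refine ⟨fun x => w x.1, fun p hp => ?_⟩
    have h1 : p.1 ∈ nb σ A := Finset.mem_union_left _ (Finset.mem_product.1 hp).1
    have h2 : p.1 * σ p.2 ∈ nb σ A := Finset.mem_union_right _ (Finset.mem_image.2 ⟨p, hp, rfl⟩)
    have h3 : T (fun x => w x.1) p = ex (fun x => w x.1) p.1 - ex (fun x => w x.1) (p.1 * σ p.2) := rfl
    rw [h3]
    simp only [ex, dif_pos h1, dif_pos h2]
    have h4 := hw p.1 p.2
    rw [Pi.one_apply, one_mul] at h4
    exact h4)
  rw [Fintype.card_coe, Finset.sum_product] at h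
  refine le_trans (le_of_eq ?_) h
  rw [mul_comm, ← nsmul_eq_mul, ← Finset.sum_const]
  refine Finset.sum_congr rfl fun x _ => Finset.sum_congr rfl fun l _ => ?_
  exact (q_inv (KW_inv hW σ 1) x l).symm

theorem bt_nonneg (σ : ι → G) : 0 ≤ bt σ := by
  refine Finset.sum_nonneg fun l _ => ?_
  rw [q_sub (KW_le σ 1) 1 l]
  exact sq_nonneg _

omit [Fintype ι] in
theorem range_lb (S : Finset G) : Set.range (lb S) = (S : Set G) := by
  ext x
  constructor
  · rintro ⟨i, rfl⟩
    exact lb_mem S i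
  · intro hx
    exact exists_lb hx

/-- the balls grow at least like `(1 + bt) ^ n` -/
theorem growth (S : Finset G) (hinf : Infinite G) (hS : Subgroup.closure (S : Set G) = ⊤) (n : ℕ) :
    (1 + bt (lb S)) ^ n ≤ ((S ∪ S⁻¹ ∪ {1}) ^ n).card := by
  have h1 : 1 + bt (lb S) ≤ ∑ l, q (KW ⊤ (lb S) 1) 1 l := by
    have h2 : 1 ≤ ∑ k, q (KW (WN G) (lb S) 1) 1 k := by
      refine one_le_trN (lb S) ?_
      rw [range_lb, hS]
      exact Set.infinite_univ
    rw [bt, Finset.sum_sub_distrib]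
    linarith
  have h0 := bt_nonneg (lb S)
  induction n with
  | zero => simp
  | succ n ih =>
    have h3 := count_le ⊤ top_inv (lb S) ((S ∪ S⁻¹ ∪ {1}) ^ n)
    have h4 : nb (lb S) ((S ∪ S⁻¹ ∪ {1}) ^ n) ⊆ (S ∪ S⁻¹ ∪ {1}) ^ (n + 1) := by
      intro x hx
      rw [pow_succ]
      rcases Finset.mem_union.1 hx with hx | hx
      · have h5 := Finset.mul_mem_mul hx
          (show (1 : G) ∈ S ∪ S⁻¹ ∪ {1} from Finset.mem_union_right _ (Finset.mem_singleton_self 1))
        rwa [mul_one] at h5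
      · obtain ⟨p, hp, rfl⟩ := Finset.mem_image.1 hx
        exact Finset.mul_mem_mul (Finset.mem_product.1 hp).1
          (Finset.mem_union_left _ (Finset.mem_union_left _ (lb_mem S p.2)))
    have h5 : ((nb (lb S) ((S ∪ S⁻¹ ∪ {1}) ^ n)).card : ℝ) ≤ (((S ∪ S⁻¹ ∪ {1}) ^ (n + 1)).card : ℝ) := by
      exact_mod_cast Finset.card_le_card h4
    calc (1 + bt (lb S)) ^ (n + 1) = (1 + bt (lb S)) * (1 + bt (lb S)) ^ n := by ring
      _ ≤ (1 + bt (lb S)) * ((S ∪ S⁻¹ ∪ {1}) ^ n).card := mul_le_mul_of_nonneg_left ih (by linarith)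
      _ ≤ (∑ l, q (KW ⊤ (lb S) 1) 1 l) * ((S ∪ S⁻¹ ∪ {1}) ^ n).card :=
          mul_le_mul_of_nonneg_right h1 (Nat.cast_nonneg _)
      _ ≤ (nb (lb S) ((S ∪ S⁻¹ ∪ {1}) ^ n)).card := h3
      _ ≤ ((S ∪ S⁻¹ ∪ {1}) ^ (n + 1)).card := h5

end Pool.Agent.H79.CG
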