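import Pool.Agent.H79.CG.Defs
import Pool.Agent.H79.CG.Sp

/-!
# [H79 CG BT] `beta` against the dimension of the space of harmonic gradients

`beta_le`, `bt_le`, `beta_pos`, and two subgroups with `beta = 0`.
-/

set_option autoImplicit false

open scoped Classical InnerProductSpace

noncomputable section

namespace Pool.Agent.H79.CG

universe u

variable {G : Type u} [Group G] {ι : Type}

/-- labels of a finite set -/
def lb (S : Finset G) (i : Fin S.card) : G := (S.equivFin.symm i : G)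

omit [Group G] in
theorem lb_mem (S : Finset G) (i : Fin S.card) : lb S i ∈ S := (S.equivFin.symm i).2

omit [Group G] in
theorem exists_lb {S : Finset G} {s : G} (hs : s ∈ S) : ∃ i, lb S i = s :=
  ⟨S.equivFin ⟨s, hs⟩, by rw [lb, Equiv.symm_apply_apply]⟩

omit [Group G] in
theorem sum_lb {M : Type} [AddCommMonoid M] (S : Finset G) (f : G → M) :
    ∑ i, f (lb S i) = ∑ s ∈ S, f s := by
  rw [← Finset.sum_coe_sort S f]
  exact Equiv.sum_comp S.equivFin.symm (fun s : S => f s)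

/-! ### gradients of the finitely supported functions -/

/-- the gradient of the indicator function of `x` -/
def dg [Fintype ι] (σ : ι → G) (x : G) : E G ι := ∑ l, (dl x l - dl (x * (σ l)⁻¹) l)

theorem dg_apply [Fintype ι] (σ : ι → G) (x y : G) (k : ι) :
    dg σ x (y, k) = (if y = x then 1 else 0) - (if y * σ k = x then 1 else 0) := by
  rw [dg, lp.coeFn_sum, Finset.sum_apply, Finset.sum_eq_single k]
  · rw [lp.coeFn_sub, Pi.sub_apply, dl_apply, dl_apply]
    simp only [and_true, eq_mul_inv_iff_mul_eq]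
  · intro l _ hl
    rw [lp.coeFn_sub, Pi.sub_apply, dl_apply, dl_apply, if_neg (fun h => hl h.2.symm),
      if_neg (fun h => hl h.2.symm), sub_zero]
  · intro h
    exact absurd (Finset.mem_univ k) h

theorem inner_dg [Fintype ι] (σ : ι → G) (φ : E G ι) (x : G) :
    ⟪φ, dg σ x⟫_ℝ = ∑ l, (φ (x, l) - φ (x * (σ l)⁻¹, l)) := by
  rw [dg, inner_sum]
  refine Finset.sum_congr rfl fun l _ => ?_
  rw [inner_sub_right, inner_dl, inner_dl]

theorem dg_mem [Fintype ι] (σ : ι → G) (x : G) : dg σ x ∈ KW (WN G) σ 1 := by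
  refine ⟨fun y => if y = x then 1 else 0, ?_, fun y l => ?_⟩
  · show (Function.support _).Finite
    refine (Set.finite_singleton x).subset fun y hy => ?_
    by_contra hne
    exact hy (if_neg hne)
  · rw [dg_apply, Pi.one_apply, one_mul]

theorem gr_eq_sum [Fintype ι] (σ : ι → G) {w : G → ℝ} (hw : (Function.support w).Finite) {ψ : E G ι}
    (h : Gr σ 1 w ψ) : ψ = ∑ x ∈ hw.toFinset, w x • dg σ x := by
  apply E_ext
  rintro ⟨y, k⟩
  rw [h y k, lp.coeFn_sum, Finset.sum_apply, Pi.one_apply, one_mul]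
  have h1 : ∀ x, (w x • dg σ x) (y, k) = (if y = x then w x else 0) - (if y * σ k = x then w x else 0) := by
    intro x
    rw [lp.coeFn_smul, Pi.smul_apply, dg_apply, smul_eq_mul, mul_sub, mul_ite, mul_ite, mul_one, mul_zero]
  have h2 : ∀ z : G, ∑ x ∈ hw.toFinset, (if z = x then w x else 0) = w z := by
    intro z
    rw [Finset.sum_ite_eq]
    split_ifs with hz
    · rfl
    · rw [Set.Finite.mem_toFinset, Function.mem_support, not_not] at hz
      exact hz.symm
  rw [Finset.sum_congr rfl fun x _ => h1 x, Finset.sum_sub_distrib, h2, h2]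

theorem orth_iff [Fintype ι] (σ : ι → G) (φ : E G ι) :
    (∀ ψ ∈ KW (WN G) σ 1, ⟪φ, ψ⟫_ℝ = 0) ↔ ∀ x, ∑ l, (φ (x, l) - φ (x * (σ l)⁻¹, l)) = 0 := by
  constructor
  · intro h x
    rw [← inner_dg]
    exact h _ (dg_mem σ x)
  · rintro h ψ ⟨w, hw, hψ⟩
    rw [gr_eq_sum σ hw hψ, inner_sum]
    refine Finset.sum_eq_zero fun x _ => ?_
    rw [inner_smul_right, inner_dg, h x, mul_zero]

omit [Group G] in
/-- energy of a vector -/
theorem nsq_eq [Fintype ι] (φ : E G ι) : ‖φ‖ ^ 2 = ∑ l, ∑' x, φ (x, l) ^ 2 := by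
  have h1 := E_nsq φ
  have h2 : HasSum (fun p : ι × G => φ (p.2, p.1) ^ 2) (‖φ‖ ^ 2) :=
    ((Equiv.prodComm ι G).hasSum_iff (f := fun p : G × ι => φ p ^ 2)).2 h1
  rw [← h2.tsum_eq, h2.summable.tsum_prod, tsum_fintype]

omit [Group G] in
theorem summable_of_forall [Fintype ι] (f : G × ι → ℝ) (h : ∀ l, Summable fun x => f (x, l) ^ 2) :
    Summable fun p => f p ^ 2 := by
  have h3 : Summable (fun p : ι × G => f (p.2, p.1) ^ 2) := by
    rw [summable_prod_of_nonneg (fun p => sq_nonneg _)]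
    exact ⟨fun k => h k, Summable.of_finite⟩
  exact ((Equiv.prodComm ι G).summable_iff (f := fun p : G × ι => f p ^ 2)).1 h3

omit [Group G] in
theorem summable_row (φ : E G ι) (l : ι) : Summable fun x => φ (x, l) ^ 2 :=
  (E_nsq φ).summable.comp_injective (i := fun y : G => (y, l)) (fun _ _ hab => congrArg Prod.fst hab)

/-! ### the set in the definition of `beta` -/

/-- the set in the definition of `beta` -/
def bs (S : Finset G) (s : G) : Set ℝ :=
  {t : ℝ | ∃ u : G → ℝ, IsHD S u ∧ ∑ s' ∈ S, ∑' x, (u x - u (x * s')) ^ 2 ≤ 1 ∧ t = (u 1 - u s) ^ 2}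

theorem beta_eq (S : Finset G) : beta S = ∑ s ∈ S, sSup (bs S s) := rfl

theorem bs_le_one {S : Finset G} {s : G} (hs : s ∈ S) {t : ℝ} (ht : t ∈ bs S s) : t ≤ 1 := by
  obtain ⟨u, hu, h1, rfl⟩ := ht
  refine le_trans ?_ h1
  have h2 : (u 1 - u s) ^ 2 ≤ ∑' x, (u x - u (x * s)) ^ 2 := by
    have h3 := (hu.1 s hs).le_tsum 1 (fun x _ => sq_nonneg _)
    rwa [one_mul] at h3
  exact h2.trans (Finset.single_le_sum (f := fun s' => ∑' x, (u x - u (x * s')) ^ 2)
    (fun s' _ => tsum_nonneg fun x => sq_nonneg _) hs)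

theorem bs_bdd {S : Finset G} {s : G} (hs : s ∈ S) : BddAbove (bs S s) := ⟨1, fun _ ht => bs_le_one hs ht⟩

theorem bs_nonneg {S : Finset G} {s : G} {t : ℝ} (ht : t ∈ bs S s) : 0 ≤ t := by
  obtain ⟨u, -, -, rfl⟩ := ht
  exact sq_nonneg _

theorem sSup_bs_nonneg (S : Finset G) (s : G) : 0 ≤ sSup (bs S s) := Real.sSup_nonneg fun _ ht => bs_nonneg ht

/-! ### the two inequalities -/

theorem beta_le_aux (S : Finset G) (i : Fin S.card) (u : G → ℝ) (hu : IsHD S u)
    (h1 : ∑ s' ∈ S, ∑' x, (u x - u (x * s')) ^ 2 ≤ 1) :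
    (u 1 - u (lb S i)) ^ 2 ≤ q (KW ⊤ (lb S) 1) 1 i - q (KW (WN G) (lb S) 1) 1 i := by
  have hq := q_sub (KW_le (lb S) 1) 1 i
  have hsum : Summable fun p : G × Fin S.card => (u p.1 - u (p.1 * lb S p.2)) ^ 2 :=
    summable_of_forall (fun p : G × Fin S.card => u p.1 - u (p.1 * lb S p.2)) fun l => hu.1 (lb S l) (lb_mem S l)
  obtain ⟨φ, hφ⟩ : ∃ φ : E G (Fin S.card), ∀ x l, φ (x, l) = u x - u (x * lb S l) :=
    ⟨mk (fun p => u p.1 - u (p.1 * lb S p.2)) hsum, fun x l => rfl⟩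
  have hM : φ ∈ KW ⊤ (lb S) 1 := ⟨u, Submodule.mem_top, fun x l => by rw [hφ, Pi.one_apply, one_mul]⟩
  have hn : ‖φ‖ ^ 2 ≤ 1 := by
    rw [nsq_eq]
    refine le_trans (le_of_eq ?_) h1
    rw [← sum_lb S (fun s' => ∑' x, (u x - u (x * s')) ^ 2)]
    exact Finset.sum_congr rfl fun l _ => tsum_congr fun x => by rw [hφ]
  have ho : ∀ ψ ∈ KW (WN G) (lb S) 1, ⟪φ, ψ⟫_ℝ = 0 := by
    rw [orth_iff]
    intro x
    have h3 := hu.2 x
    rw [← sum_lb S (fun s => (u x - u (x * s)) + (u x - u (x * s⁻¹)))] at h3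
    rw [← h3]
    refine Finset.sum_congr rfl fun l _ => ?_
    rw [hφ, hφ, inv_mul_cancel_right]
    ring
  have hN : pr (KW (WN G) (lb S) 1) φ = 0 :=
    pr_unique (Submodule.zero_mem _) fun w hw => by rw [sub_zero]; exact ho w hw
  have hval : u 1 - u (lb S i) = ⟪φ, pr (KW ⊤ (lb S) 1) (dl 1 i) - pr (KW (WN G) (lb S) 1) (dl 1 i)⟫_ℝ := by
    have e1 : ⟪φ, pr (KW ⊤ (lb S) 1) (dl 1 i)⟫_ℝ = u 1 - u (lb S i) := by
      rw [← inner_pr (KW ⊤ (lb S) 1) φ (dl 1 i), pr_of_mem hM, inner_dl, hφ, one_mul]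
    have e2 : ⟪φ, pr (KW (WN G) (lb S) 1) (dl 1 i)⟫_ℝ = 0 := by
      rw [← inner_pr (KW (WN G) (lb S) 1) φ (dl 1 i), hN, inner_zero_left]
    rw [inner_sub_right, e1, e2, sub_zero]
  rw [hval, hq, ← sq_abs]
  have h4 := abs_real_inner_le_norm φ (pr (KW ⊤ (lb S) 1) (dl 1 i) - pr (KW (WN G) (lb S) 1) (dl 1 i))
  refine (pow_le_pow_left₀ (abs_nonneg _) h4 2).trans ?_
  rw [mul_pow]
  exact (mul_le_mul_of_nonneg_right hn (sq_nonneg _)).trans (le_of_eq (one_mul _))

theorem beta_le (S : Finset G) : beta S ≤ bt (lb S) := by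
  rw [beta_eq, ← sum_lb S (fun s => sSup (bs S s)), bt]
  refine Finset.sum_le_sum fun i _ => ?_
  refine Real.sSup_le ?_ ?_
  · rintro t ⟨u, hu, h1, rfl⟩
    exact beta_le_aux S i u hu h1
  · rw [q_sub (KW_le (lb S) 1) 1 i]
    exact sq_nonneg _

theorem bt_le {H : Subgroup G} (F : Finset H) (hF : Subgroup.closure (F : Set H) = ⊤) :
    bt (fun i => ((lb F i : H) : G)) ≤ beta F := by
  set σ : Fin F.card → G := fun i => ((lb F i : H) : G) with hσ
  have hcl : ∀ h : H, (h : G) ∈ Subgroup.closure (Set.range σ) := by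
    intro h
    have h1 : h ∈ Subgroup.closure (F : Set H) := by rw [hF]; exact Subgroup.mem_top h
    have h2 : (h : G) ∈ (Subgroup.closure (F : Set H)).map H.subtype := ⟨h, h1, rfl⟩
    rw [MonoidHom.map_closure] at h2
    refine Subgroup.closure_mono ?_ h2
    rintro _ ⟨k, hk, rfl⟩
    obtain ⟨i, hi⟩ := exists_lb (Finset.mem_coe.1 hk)
    exact ⟨i, by rw [hσ]; simp only [hi]; rfl⟩
  rw [beta_eq, ← sum_lb F (fun s => sSup (bs F s)), bt]
  refine Finset.sum_le_sum fun i _ => ?_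
  have hq := q_sub (KW_le σ 1) 1 i
  have hq2 := q_sub_inner (K := KW (WN G) σ 1) (M := KW ⊤ σ 1) 1 i
  set ψ := pr (KW ⊤ σ 1) (dl 1 i) - pr (KW (WN G) σ 1) (dl 1 i) with hψ
  rw [inner_dl] at hq2
  rcases (sq_nonneg ‖ψ‖).eq_or_lt with h0 | h0
  · rw [hq, ← h0]
    exact sSup_bs_nonneg _ _
  obtain ⟨t, ht⟩ : ∃ t, t = ‖ψ‖ ^ 2 := ⟨_, rfl⟩
  rw [← ht] at h0 hq
  choose Z hZ hZ' using fun h : H => exists_path σ (h : G) (hcl h)
  have hM : ψ ∈ (KW ⊤ σ 1).topologicalClosure :=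
    Submodule.sub_mem _ (pr_mem _ _) (Submodule.topologicalClosure_mono (KW_le σ 1) (pr_mem _ _))
  have hN : ∀ w ∈ KW (WN G) σ 1, ⟪ψ, w⟫_ℝ = 0 := by
    intro w hw
    have e1 : ⟪pr (KW ⊤ σ 1) (dl 1 i), w⟫_ℝ = ⟪dl 1 i, w⟫_ℝ :=
      inner_pr_of_mem _ (Submodule.le_topologicalClosure _ (KW_le σ 1 hw))
    have e2 : ⟪pr (KW (WN G) σ 1) (dl 1 i), w⟫_ℝ = ⟪dl 1 i, w⟫_ℝ :=
      inner_pr_of_mem _ (Submodule.le_topologicalClosure _ hw)
    rw [hψ, inner_sub_left, e1, e2, sub_self]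
  rw [orth_iff] at hN
  -- the increments of the potential
  have hinc : ∀ (h : H) (k : Fin F.card), Z (h * lb F k) ψ (1, ()) - Z h ψ (1, ()) = ψ ((h : G), k) := by
    intro h k
    have hc1 : Continuous fun φ : E G (Fin F.card) => Z (h * lb F k) φ (1, ()) - Z h φ (1, ()) := by
      have e : (fun φ : E G (Fin F.card) => Z (h * lb F k) φ (1, ()) - Z h φ (1, ())) =
          fun φ => ⟪Z (h * lb F k) φ, dl 1 ()⟫_ℝ - ⟪Z h φ, dl 1 ()⟫_ℝ := by
        funext φ
        rw [inner_dl, inner_dl]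
      rw [e]
      exact ((Z (h * lb F k)).continuous.inner continuous_const).sub ((Z h).continuous.inner continuous_const)
    have hc2 : Continuous fun φ : E G (Fin F.card) => φ ((h : G), k) := by
      have e : (fun φ : E G (Fin F.card) => φ ((h : G), k)) = fun φ => ⟪φ, dl (h : G) k⟫_ℝ := by
        funext φ
        rw [inner_dl]
      rw [e]
      exact continuous_id.inner continuous_const
    have hcl2 : IsClosed {φ : E G (Fin F.card) | Z (h * lb F k) φ (1, ()) - Z h φ (1, ()) = φ ((h : G), k)} :=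
      isClosed_eq hc1 hc2
    have hsub : ((KW ⊤ σ 1 : Submodule ℝ (E G (Fin F.card))) : Set (E G (Fin F.card))) ⊆
        {φ : E G (Fin F.card) | Z (h * lb F k) φ (1, ()) - Z h φ (1, ()) = φ ((h : G), k)} := by
      rintro φ ⟨w, -, hw⟩
      show Z (h * lb F k) φ (1, ()) - Z h φ (1, ()) = φ ((h : G), k)
      rw [hZ' (h * lb F k) φ w hw, hZ' h φ w hw, hw, Pi.one_apply, one_mul, one_mul, one_mul, Subgroup.coe_mul]
      show _ = w ↑h - w (↑h * ↑(lb F k))
      ring
    exact closure_minimal hsub hcl2 hM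
  -- the potential
  obtain ⟨u, hu⟩ : ∃ u : H → ℝ, ∀ h, u h = -(Z h ψ (1, ())) / Real.sqrt t := ⟨fun h => -(Z h ψ (1, ())) / Real.sqrt t,
    fun h => rfl⟩
  have hst : 0 < Real.sqrt t := Real.sqrt_pos.2 h0
  have hdiff : ∀ (h : H) (k : Fin F.card), u h - u (h * lb F k) = ψ ((h : G), k) / Real.sqrt t := by
    intro h k
    rw [hu, hu, ← hinc h k]
    ring
  have hrow : ∀ k : Fin F.card, Summable fun h : H => ψ ((h : G), k) ^ 2 := fun k =>
    (summable_row ψ k).comp_injective (i := fun h : H => (h : G)) Subtype.coe_injective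
  have hHD : IsHD F u := by
    refine ⟨fun s hs => ?_, fun h => ?_⟩
    · obtain ⟨k, rfl⟩ := exists_lb hs
      have e : (fun x : H => (u x - u (x * lb F k)) ^ 2) = fun x : H => ψ ((x : G), k) ^ 2 * t⁻¹ := by
        funext x
        rw [hdiff, div_pow, Real.sq_sqrt h0.le, div_eq_mul_inv]
      rw [e]
      exact (hrow k).mul_right _
    · rw [← sum_lb F (fun s => (u h - u (h * s)) + (u h - u (h * s⁻¹)))]
      have e : ∀ k : Fin F.card, (u h - u (h * lb F k)) + (u h - u (h * (lb F k)⁻¹)) =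
          (ψ ((h : G), k) - ψ ((h : G) * (σ k)⁻¹, k)) / Real.sqrt t := by
        intro k
        have e1 := hdiff (h * (lb F k)⁻¹) k
        rw [inv_mul_cancel_right] at e1
        have e2 : ((h * (lb F k)⁻¹ : H) : G) = (h : G) * (σ k)⁻¹ := rfl
        rw [e2] at e1
        rw [hdiff h k, sub_div, ← e1]
        ring
      rw [Finset.sum_congr rfl fun k _ => e k, ← Finset.sum_div, hN, zero_div]
  have hen : ∑ s' ∈ F, ∑' x, (u x - u (x * s')) ^ 2 ≤ 1 := by
    rw [← sum_lb F (fun s' => ∑' x, (u x - u (x * s')) ^ 2)]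
    have e : ∀ k : Fin F.card, ∑' x, (u x - u (x * lb F k)) ^ 2 ≤ (∑' x, ψ (x, k) ^ 2) * t⁻¹ := by
      intro k
      have e : (fun x : H => (u x - u (x * lb F k)) ^ 2) = fun x : H => ψ ((x : G), k) ^ 2 * t⁻¹ := by
        funext x
        rw [hdiff, div_pow, Real.sq_sqrt h0.le, div_eq_mul_inv]
      rw [e, tsum_mul_right]
      refine mul_le_mul_of_nonneg_right ?_ (inv_nonneg.2 h0.le)
      exact (hrow k).tsum_le_tsum_of_inj (fun h : H => (h : G)) Subtype.coe_injective (fun _ _ => sq_nonneg _)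
        (fun h => le_rfl) (summable_row ψ k)
    refine (Finset.sum_le_sum fun k _ => e k).trans ?_
    rw [← Finset.sum_mul, ← nsq_eq, ← ht, mul_inv_cancel₀ h0.ne']
  rw [hq]
  refine le_csSup (bs_bdd (lb_mem F i)) ⟨u, hHD, hen, ?_⟩
  have e1 := hdiff 1 i
  rw [one_mul] at e1
  have e2 : ψ (((1 : H) : G), i) = t := by
    rw [Subgroup.coe_one, ← hq2, hq]
  rw [e1, e2, div_pow, Real.sq_sqrt h0.le, sq, mul_div_assoc, div_self h0.ne', mul_one]

/-! ### positivity -/

theorem beta_pos (S : Finset G) (hS : Subgroup.closure (S : Set G) = ⊤) (u : G → ℝ) (hu : IsHD S u) (x y : G)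
    (hxy : u x ≠ u y) : 0 < beta S := by
  obtain ⟨z, s, hs, hz⟩ : ∃ z, ∃ s ∈ S, u z ≠ u (z * s) := by
    by_contra hcon
    push Not at hcon
    have h1 : ∀ g ∈ Subgroup.closure (S : Set G), ∀ z, u z = u (z * g) := by
      intro g hg
      refine Subgroup.closure_induction (p := fun g _ => ∀ z, u z = u (z * g)) ?_ ?_ ?_ ?_ hg
      · intro s hs z
        exact hcon z s hs
      · intro z
        rw [mul_one]
      · intro a b _ _ ha hb z
        rw [ha z, hb (z * a), mul_assoc]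
      · intro a _ ha z
        have h2 := ha (z * a⁻¹)
        rw [inv_mul_cancel_right] at h2
        exact h2.symm
    apply hxy
    have h2 := h1 (x⁻¹ * y) (by rw [hS]; exact Subgroup.mem_top _) x
    rwa [mul_inv_cancel_left] at h2
  -- the translate
  have hmul : ∀ s' ∈ S, Summable fun x => (u (z * x) - u (z * (x * s'))) ^ 2 := by
    intro s' hs'
    have h1 := (Equiv.mulLeft z).summable_iff (f := fun x => (u x - u (x * s')) ^ 2)
    have h2 := h1.2 (hu.1 s' hs')
    refine h2.congr fun x => ?_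
    simp only [Function.comp_apply, Equiv.coe_mulLeft, mul_assoc]
  obtain ⟨e, he⟩ : ∃ e, e = ∑ s' ∈ S, ∑' x, (u (z * x) - u (z * (x * s'))) ^ 2 := ⟨_, rfl⟩
  have he0 : 0 ≤ e := by
    rw [he]
    exact Finset.sum_nonneg fun s' _ => tsum_nonneg fun x => sq_nonneg _
  obtain ⟨a, ha⟩ : ∃ a, a = 1 / (e + 1) := ⟨_, rfl⟩
  have ha0 : 0 < a := by rw [ha]; positivity
  have ha1 : a ≤ 1 := by
    rw [ha, div_le_one (by linarith)]
    linarith
  have hae : a ^ 2 * e ≤ 1 := by
    have h1 : a * e ≤ 1 := by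
      rw [ha, one_div, inv_mul_le_iff₀ (by linarith)]
      linarith
    have h2 : a * (a * e) ≤ 1 := by
      have := mul_nonneg ha0.le he0
      nlinarith
    nlinarith
  have hmem : (a * u z - a * u (z * s)) ^ 2 ∈ bs S s := by
    refine ⟨fun x => a * u (z * x), ⟨fun s' hs' => ?_, fun x => ?_⟩, ?_, ?_⟩
    · refine ((hmul s' hs').mul_left (a ^ 2)).congr fun x => ?_
      ring
    · have h1 := hu.2 (z * x)
      have h2 : ∑ s ∈ S, ((a * u (z * x) - a * u (z * (x * s))) + (a * u (z * x) - a * u (z * (x * s⁻¹)))) =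
          a * ∑ s ∈ S, ((u (z * x) - u (z * x * s)) + (u (z * x) - u (z * x * s⁻¹))) := by
        rw [Finset.mul_sum]
        refine Finset.sum_congr rfl fun s _ => ?_
        rw [mul_assoc z x, mul_assoc z x]
        ring
      show ∑ s ∈ S, ((a * u (z * x) - a * u (z * (x * s))) + (a * u (z * x) - a * u (z * (x * s⁻¹)))) = 0
      rw [h2, h1, mul_zero]
    · refine le_trans (le_of_eq ?_) hae
      rw [he, Finset.mul_sum]
      refine Finset.sum_congr rfl fun s' _ => ?_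
      rw [← tsum_mul_left]
      refine tsum_congr fun x => ?_
      show (a * u (z * x) - a * u (z * (x * s'))) ^ 2 = _
      ring
    · show _ = (a * u (z * 1) - a * u (z * s)) ^ 2
      rw [mul_one]
  rw [beta_eq]
  refine Finset.sum_pos' (fun s _ => sSup_bs_nonneg S s) ⟨s, hs, ?_⟩
  refine lt_of_lt_of_le ?_ (le_csSup (bs_bdd hs) hmem)
  have h3 : a * u z - a * u (z * s) ≠ 0 := by
    rw [← mul_sub]
    exact mul_ne_zero ha0.ne' (sub_ne_zero.2 hz)
  positivity

/-! ### two subgroups with `beta = 0` -/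

theorem beta_eq_zero (S : Finset G) (h : ∀ u : G → ℝ, IsHD S u → ∀ s ∈ S, u 1 = u s) : beta S = 0 := by
  rw [beta_eq]
  refine Finset.sum_eq_zero fun s hs => le_antisymm ?_ (sSup_bs_nonneg S s)
  refine Real.sSup_le ?_ le_rfl
  rintro t ⟨u, hu, -, rfl⟩
  rw [h u hu s hs, sub_self]
  norm_num

theorem exists_of_beta_pos (S : Finset G) (h : 0 < beta S) : ∃ u : G → ℝ, IsHD S u ∧ ∃ x y, u x ≠ u y := by
  by_contra hcon
  push Not at hcon
  have h1 := beta_eq_zero S fun u hu s _ => hcon u hu 1 s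
  rw [h1] at h
  exact lt_irrefl 0 h

theorem beta_univ [Fintype G] : beta (Finset.univ : Finset G) = 0 := by
  refine beta_eq_zero _ fun u hu s _ => ?_
  have h1 : ∀ x, u x = (∑ y, u y) / Fintype.card G := by
    intro x
    have h2 := hu.2 x
    rw [Finset.sum_add_distrib, Finset.sum_sub_distrib, Finset.sum_sub_distrib] at h2
    have h3 : ∑ s : G, u (x * s) = ∑ y, u y := Equiv.sum_comp (Equiv.mulLeft x) u
    have h4 : ∑ s : G, u (x * s⁻¹) = ∑ y, u y := Equiv.sum_comp ((Equiv.inv G).trans (Equiv.mulLeft x)) u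
    rw [h3, h4, Finset.sum_const, Finset.card_univ, nsmul_eq_mul] at h2
    have h5 : (0 : ℝ) < Fintype.card G := by
      have : Nonempty G := ⟨1⟩
      exact_mod_cast Fintype.card_pos
    rw [eq_div_iff h5.ne']
    linarith
  rw [h1 1, h1 s]

theorem beta_zpowers (h : G) (hh : ¬ IsOfFinOrder h) :
    beta ({⟨h, Subgroup.mem_zpowers h⟩} : Finset (Subgroup.zpowers h)) = 0 := by
  refine beta_eq_zero _ fun u hu s hs => ?_
  rw [Finset.mem_singleton] at hs
  subst hs
  set g : Subgroup.zpowers h := ⟨h, Subgroup.mem_zpowers h⟩ with hg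
  have h1 : ∀ x, u x - u (x * g) = u (x * g⁻¹) - u x := by
    intro x
    have h2 := hu.2 x
    rw [Finset.sum_singleton] at h2
    linarith
  have h2 : ∀ n : ℕ, u (g ^ n) - u (g ^ n * g) = u 1 - u g := by
    intro n
    induction n with
    | zero => rw [pow_zero, one_mul]
    | succ n ih =>
      rw [h1 (g ^ (n + 1)), pow_succ, mul_inv_cancel_right, ih]
  have hinj : Function.Injective fun n : ℕ => g ^ n := by
    intro a b hab
    have h3 : h ^ a = h ^ b := congrArg Subtype.val hab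
    exact injective_pow_iff_not_isOfFinOrder.2 hh h3
  have h3 : Summable fun n : ℕ => (u 1 - u g) ^ 2 := by
    have h4 := (hu.1 g (Finset.mem_singleton_self g)).comp_injective hinj
    refine h4.congr fun n => ?_
    show (u (g ^ n) - u (g ^ n * g)) ^ 2 = _
    rw [h2]
  have h4 := (summable_const_iff _).1 h3
  have h5 : u 1 - u g = 0 := by
    exact pow_eq_zero_iff (two_ne_zero) |>.1 h4
  linarith

end Pool.Agent.H79.CG
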