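import Mathlib
import Pool.Agent.H79.CG.Lim

/-!
# [H79 CG CNT] The count of cosets

If `τ` generates `H` and `bt τ < bt σ`, then for some label `l` of `σ` and all finite `A`:
`#A (bt σ - bt τ) ≤ #ι * #(cosets of H which meet A or A σ_l)`.
-/

set_option autoImplicit false

open scoped Classical InnerProductSpace Topology

noncomputable section

namespace Pool.Agent.H79.CG

universe u

variable {G : Type u} [Group G] {ι κ : Type} [Fintype ι] [Fintype κ]

/-- the values of a function on the cosets which meet a finite set -/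
private def ev {H : Subgroup G} (Q : Finset (G ⧸ H)) (c : Q → ℝ) (z : G ⧸ H) : ℝ :=
  if h : z ∈ Q then c ⟨z, h⟩ else 0

private def Tm {H : Subgroup G} (Q : Finset (G ⧸ H)) (g : G) : (Q → ℝ) →ₗ[ℝ] (G → ℝ) where
  toFun c := fun a => ev Q c (QuotientGroup.mk a) - ev Q c (QuotientGroup.mk (a * g))
  map_add' c d := by
    funext a
    have h : ∀ z, ev Q (c + d) z = ev Q c z + ev Q d z := by
      intro z
      unfold ev
      by_cases hz : z ∈ Q
      · rw [dif_pos hz, dif_pos hz, dif_pos hz, Pi.add_apply]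
      · rw [dif_neg hz, dif_neg hz, dif_neg hz, add_zero]
    rw [Pi.add_apply, h, h]
    ring
  map_smul' r c := by
    funext a
    have h : ∀ z, ev Q (r • c) z = r * ev Q c z := by
      intro z
      unfold ev
      by_cases hz : z ∈ Q
      · rw [dif_pos hz, dif_pos hz, Pi.smul_apply, smul_eq_mul]
      · rw [dif_neg hz, dif_neg hz, mul_zero]
    rw [Pi.smul_apply, h, h, smul_eq_mul, RingHom.id_apply]
    ring

variable (σ : ι → G) (τ : κ → G)

/-- the rank bound -/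
theorem sum_q_le (H : Subgroup G) (hH : ∀ h ∈ H, h ∈ Subgroup.closure (Set.range τ)) (A : Finset G) (l : ι) :
    ∃ K : ℝ, 0 ≤ K ∧ ∀ ε : ℝ, 0 < ε → ε ≤ 1 →
      ∑ a ∈ A, q (KW ⊤ (Sum.elim σ τ) (J ι κ ε)) a (Sum.inl l) ≤ ncs H (σ l) A + K * ε := by
  unfold ncs
  obtain ⟨r, hr⟩ : ∃ r : G → G, r = fun x => Quotient.out (QuotientGroup.mk x : G ⧸ H) := ⟨_, rfl⟩
  have hr' : ∀ x, x⁻¹ * r x ∈ H := by
    intro x
    rw [hr, ← QuotientGroup.eq]
    exact (QuotientGroup.out_eq' _).symm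
  choose C hC0 hC using fun x : G => exists_bound τ (x⁻¹ * r x) (hH _ (hr' x))
  have hC' : ∀ (φ : E G κ) (w : G → ℝ), Gr τ 1 w φ → ∀ x, |w x - w (r x)| ≤ C x * ‖φ‖ := by
    intro φ w hφ x
    have h := hC x φ w hφ x
    rwa [mul_inv_cancel_left] at h
  obtain ⟨K₀, hK₀, hK⟩ : ∃ K₀ : ℝ, 0 ≤ K₀ ∧ ∀ a ∈ A, C a + C (a * σ l) ≤ K₀ := by
    refine ⟨∑ a ∈ A, (C a + C (a * σ l)), Finset.sum_nonneg fun a _ => add_nonneg (hC0 _) (hC0 _), fun a ha => ?_⟩
    exact Finset.single_le_sum (f := fun a => C a + C (a * σ l)) (fun a _ => add_nonneg (hC0 _) (hC0 _)) ha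
  obtain ⟨Q, hQ⟩ : ∃ Q : Finset (G ⧸ H), Q = (A ∪ A.image (fun a => a * σ l)).image
      (fun a => (QuotientGroup.mk a : G ⧸ H)) := ⟨_, rfl⟩
  have hcard : Fintype.card Q = nc H (A ∪ A.image (fun a => a * σ l)) := by
    rw [Fintype.card_coe, hQ]
    rfl
  refine ⟨A.card * (2 * √A.card * K₀ + A.card * K₀ ^ 2), by positivity, fun ε hε hε1 => ?_⟩
  have h1 := rank_le (Tm Q (σ l)) (KW ⊤ (Sum.elim σ τ) (J ι κ ε)) A (Sum.inl l) (ε * K₀) ?_
  · refine h1.trans ?_
    rw [hcard]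
    have h2 : (A.card : ℝ) * (2 * √A.card * (ε * K₀) + A.card * (ε * K₀) ^ 2) ≤
        A.card * (2 * √A.card * K₀ + A.card * K₀ ^ 2) * ε := by
      rw [mul_assoc (A.card : ℝ)]
      refine mul_le_mul_of_nonneg_left ?_ (Nat.cast_nonneg _)
      have h3 : (A.card : ℝ) * (ε * K₀) ^ 2 ≤ A.card * K₀ ^ 2 * ε := by
        rw [mul_pow, mul_assoc]
        refine mul_le_mul_of_nonneg_left ?_ (Nat.cast_nonneg _)
        rw [mul_comm]
        refine mul_le_mul_of_nonneg_left ?_ (sq_nonneg _)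
        nlinarith
      nlinarith
    linarith
  · rintro φ ⟨w, -, hφ⟩ hφ1
    refine ⟨fun z => ε * w (Quotient.out z.1), fun a ha => ?_⟩
    have hmem : ∀ x ∈ A ∪ A.image (fun a => a * σ l), ev Q (fun z : Q => ε * w (Quotient.out z.1))
        (QuotientGroup.mk x) = ε * w (r x) := by
      intro x hx
      unfold ev
      have h2 : (QuotientGroup.mk x : G ⧸ H) ∈ Q := by
        rw [hQ]
        exact Finset.mem_image_of_mem _ hx
      rw [dif_pos h2, hr]
    have h2 : Tm Q (σ l) (fun z : Q => ε * w (Quotient.out z.1)) a = ε * w (r a) - ε * w (r (a * σ l)) := by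
      rw [← hmem a (Finset.mem_union_left _ ha),
        ← hmem (a * σ l) (Finset.mem_union_right _ (Finset.mem_image_of_mem _ ha))]
      rfl
    have h3 : φ (a, Sum.inl l) = ε * (w a - w (a * σ l)) := hφ a (Sum.inl l)
    rw [h2, h3]
    have h4 := hC' _ _ (Gr_Rr σ τ hφ) a
    have h5 := hC' _ _ (Gr_Rr σ τ hφ) (a * σ l)
    have h6 : ‖Rr φ‖ ≤ 1 := (norm_Rr_le φ).trans hφ1
    have h7 : |w a - w (r a)| ≤ C a := h4.trans (mul_le_of_le_one_right (hC0 _) h6)
    have h8 : |w (a * σ l) - w (r (a * σ l))| ≤ C (a * σ l) := h5.trans (mul_le_of_le_one_right (hC0 _) h6)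
    have e : ε * (w a - w (a * σ l)) - (ε * w (r a) - ε * w (r (a * σ l))) =
        ε * ((w a - w (r a)) - (w (a * σ l) - w (r (a * σ l)))) := by ring
    rw [e, abs_mul, abs_of_pos hε]
    refine mul_le_mul_of_nonneg_left ?_ hε.le
    exact (abs_sub _ _).trans ((add_le_add h7 h8).trans (hK a ha))

/-- **the count** -/
theorem exists_count (H : Subgroup G) (hH : ∀ h ∈ H, h ∈ Subgroup.closure (Set.range τ))
    (hτ : ∀ k, τ k ∈ Subgroup.closure (Set.range σ)) (hb : bt τ < bt σ) :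
    ∃ l, ∀ A : Finset G, A.card * (bt σ - bt τ) ≤ Fintype.card ι * ncs H (σ l) A := by
  by_contra hcon
  push Not at hcon
  choose A hA using hcon
  have hδ : 0 < bt σ - bt τ := by linarith
  have h1 : ∀ l, ∀ᶠ ε in 𝓝[>] (0 : ℝ), (Fintype.card ι : ℝ) *
      q (KW ⊤ (Sum.elim σ τ) (J ι κ ε)) 1 (Sum.inl l) < bt σ - bt τ := by
    intro l
    obtain ⟨K, hK, h2⟩ := sum_q_le σ τ H hH (A l) l
    have h3 : Filter.Tendsto (fun ε : ℝ => (Fintype.card ι : ℝ) *
        (ncs H (σ l) (A l) + K * ε)) (𝓝[>] 0)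
        (𝓝 ((Fintype.card ι : ℝ) * (ncs H (σ l) (A l) + K * 0))) := by
      refine Filter.Tendsto.mono_left ?_ nhdsWithin_le_nhds
      exact (continuous_const.mul (continuous_const.add (continuous_const.mul continuous_id))).tendsto 0
    have h4 : ∀ᶠ ε in 𝓝[>] (0 : ℝ), (Fintype.card ι : ℝ) *
        (ncs H (σ l) (A l) + K * ε) < (A l).card * (bt σ - bt τ) := by
      refine h3.eventually_lt_const ?_
      rw [mul_zero, add_zero]
      exact hA l
    have h5 : ∀ᶠ ε in 𝓝[>] (0 : ℝ), ε ≤ 1 :=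
      (nhdsWithin_le_nhds (Iic_mem_nhds (by norm_num : (0 : ℝ) < 1)))
    filter_upwards [h4, h5, self_mem_nhdsWithin] with ε h6 h7 h8
    have h9 := h2 ε h8 h7
    have h10 : ∑ a ∈ A l, q (KW ⊤ (Sum.elim σ τ) (J ι κ ε)) a (Sum.inl l) =
        (A l).card * q (KW ⊤ (Sum.elim σ τ) (J ι κ ε)) 1 (Sum.inl l) := by
      rw [Finset.sum_congr rfl fun a _ => q_inv (KW_inv top_inv _ _) a (Sum.inl l), Finset.sum_const, nsmul_eq_mul]
    rw [h10] at h9
    have h11 : (Fintype.card ι : ℝ) * ((A l).card * q (KW ⊤ (Sum.elim σ τ) (J ι κ ε)) 1 (Sum.inl l)) <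
        (A l).card * (bt σ - bt τ) := (mul_le_mul_of_nonneg_left h9 (Nat.cast_nonneg _)).trans_lt h6
    have h12 : ((A l).card : ℝ) * ((Fintype.card ι : ℝ) * q (KW ⊤ (Sum.elim σ τ) (J ι κ ε)) 1 (Sum.inl l)) <
        (A l).card * (bt σ - bt τ) := by
      rw [mul_left_comm]
      exact h11
    exact lt_of_mul_lt_mul_left h12 (Nat.cast_nonneg _)
  obtain ⟨ε, h2, hε⟩ := ((Filter.eventually_all.2 h1).and self_mem_nhdsWithin).exists
  have hε' : (0 : ℝ) < ε := hε
  have h3 := le_sum_inl σ τ hτ hε'.ne'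
  rcases isEmpty_or_nonempty ι with hι | hι
  · rw [Finset.univ_eq_empty, Finset.sum_empty] at h3
    linarith
  · have h4 : ∑ l, (Fintype.card ι : ℝ) * q (KW ⊤ (Sum.elim σ τ) (J ι κ ε)) 1 (Sum.inl l) <
        ∑ _l : ι, (bt σ - bt τ) :=
      Finset.sum_lt_sum_of_nonempty Finset.univ_nonempty fun l _ => h2 l
    rw [← Finset.mul_sum, Finset.sum_const, Finset.card_univ, nsmul_eq_mul] at h4
    have h5 := lt_of_mul_lt_mul_left h4 (Nat.cast_nonneg _)
    linarith

omit [Fintype ι] in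
/-- cosets of a conjugate -/
theorem nc_union_le (H : Subgroup G) (g : G) (A : Finset G) :
    ncs H g A ≤ nc H A + nc (H.map (MulAut.conj g).toMonoidHom) A := by
  unfold ncs nc
  rw [Finset.image_union]
  refine (Finset.card_union_le _ _).trans ?_
  refine Nat.add_le_add_left ?_ _
  have h1 : (A.image (fun a => a * g)).image (fun a => (QuotientGroup.mk a : G ⧸ H)) =
      (A.image (fun a => (QuotientGroup.mk a : G ⧸ (H.map (MulAut.conj g).toMonoidHom)))).image
        (fun z => (QuotientGroup.mk (Quotient.out z * g) : G ⧸ H)) := by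
    rw [Finset.image_image, Finset.image_image]
    refine Finset.image_congr fun a _ => ?_
    show (QuotientGroup.mk (a * g) : G ⧸ H) = QuotientGroup.mk (Quotient.out (QuotientGroup.mk a) * g)
    rw [QuotientGroup.eq]
    have h2 : a⁻¹ * Quotient.out (QuotientGroup.mk a : G ⧸ (H.map (MulAut.conj g).toMonoidHom)) ∈
        H.map (MulAut.conj g).toMonoidHom := by
      rw [← QuotientGroup.eq]
      exact (QuotientGroup.out_eq' _).symm
    obtain ⟨h, hh, h3⟩ := h2
    have h4 : g * h * g⁻¹ = a⁻¹ * Quotient.out (QuotientGroup.mk a : G ⧸ (H.map (MulAut.conj g).toMonoidHom)) := h3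
    have h5 : (a * g)⁻¹ * (Quotient.out (QuotientGroup.mk a : G ⧸ (H.map (MulAut.conj g).toMonoidHom)) * g) = h := by
      have h6 : Quotient.out (QuotientGroup.mk a : G ⧸ (H.map (MulAut.conj g).toMonoidHom)) = a * (g * h * g⁻¹) := by
        rw [h4]; group
      rw [h6]; group
    rw [h5]
    exact hh
  rw [h1]
  exact Finset.card_image_le

end Pool.Agent.H79.CG
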