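import Mathlib
import Pool.Agent.H79.CG.Bt

/-!
# [H79 CG COC] Cocycles

A cocycle `b : G → ℓ²(G)` which is not a pointwise limit of inner cocycles gives a finitely generated subgroup with positive
invariant.
-/

set_option autoImplicit false

open scoped Classical InnerProductSpace

noncomputable section

namespace Pool.Agent.H79.CG

universe u

variable {G : Type u} [Group G]

/-- the labels of `F` in `G` have the invariant of the labels of `S`, if they generate the same subgroup -/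
theorem bt_congr {ι κ : Type} [Fintype ι] [Fintype κ] (σ : ι → G) (τ : κ → G)
    (hτ : ∀ k, τ k ∈ Subgroup.closure (Set.range σ)) (hσ : ∀ l, σ l ∈ Subgroup.closure (Set.range τ)) :
    bt σ = bt τ := by
  rw [bt, bt, Finset.sum_sub_distrib, Finset.sum_sub_distrib,
    tr_KW top_inv σ 1 (fun _ => one_ne_zero) τ 1 (fun _ => one_ne_zero) hτ hσ,
    tr_KW WN_inv σ 1 (fun _ => one_ne_zero) τ 1 (fun _ => one_ne_zero) hτ hσ]

/-- a gradient which is not in the closure of the gradients of finitely supported functions -/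
theorem bt_pos {ι : Type} [Fintype ι] (σ : ι → G) {φ : E G ι} (h : φ ∈ KW ⊤ σ 1)
    (h' : φ ∉ (KW (WN G) σ 1).topologicalClosure) : 0 < bt σ := by
  have h0 : ∀ l, 0 ≤ q (KW ⊤ σ 1) 1 l - q (KW (WN G) σ 1) 1 l := by
    intro l
    rw [q_sub (KW_le σ 1)]
    exact sq_nonneg _
  have h1 : 0 ≤ bt σ := Finset.sum_nonneg fun l _ => h0 l
  refine lt_of_le_of_ne h1 fun h2 => h' ?_
  have h3 : ∀ l, q (KW ⊤ σ 1) 1 l - q (KW (WN G) σ 1) 1 l = 0 := fun l =>
    (Finset.sum_eq_zero_iff_of_nonneg fun l _ => h0 l).1 h2.symm l (Finset.mem_univ l)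
  have h4 : ∀ l, pr (KW ⊤ σ 1) (dl 1 l) = pr (KW (WN G) σ 1) (dl (1 : G) l) := by
    intro l
    have h5 := h3 l
    rw [q_sub (KW_le σ 1), sq_eq_zero_iff, norm_eq_zero, sub_eq_zero] at h5
    exact h5
  have h5 : ∀ x l, pr (KW ⊤ σ 1) (dl x l) = pr (KW (WN G) σ 1) (dl (x : G) l) := by
    intro x l
    have e : dl x l = L x (dl (1 : G) l) := by rw [L_dl, mul_one]
    rw [e, pr_eqv (KW_inv top_inv σ 1) x, pr_eqv (KW_inv WN_inv σ 1) x, h4]
  have h6 : pr (KW ⊤ σ 1) φ = pr (KW (WN G) σ 1) φ := by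
    rw [← sub_eq_zero]
    refine E_zero fun x l => ?_
    rw [inner_sub_left, inner_pr, inner_pr, h5, sub_self]
  rw [pr_of_mem h] at h6
  rw [h6]
  exact pr_mem _ _

/-- from a cocycle to labels -/
theorem bt_pos_of_cocycle {b : G → G → ℝ} (hb : IsCocycle b) (h : ¬ IsLimInner b) : ∃ S : Finset G, 0 < bt (lb S) := by
  unfold IsLimInner at h
  push Not at h
  obtain ⟨S, ε, hε, h⟩ := h
  refine ⟨S, ?_⟩
  obtain ⟨w, hw⟩ : ∃ w : G → ℝ, w = fun x => b x⁻¹ x⁻¹ := ⟨_, rfl⟩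
  have hbw : ∀ g x, b g x⁻¹ = w x - w (x * g) := by
    intro g x
    have h1 := hb.2 g (g⁻¹ * x⁻¹) x⁻¹
    rw [mul_inv_cancel_left] at h1
    rw [hw]
    show b g x⁻¹ = b x⁻¹ x⁻¹ - b (x * g)⁻¹ (x * g)⁻¹
    rw [mul_inv_rev, h1]
    ring
  have hs : ∀ g, Summable fun x => (w x - w (x * g)) ^ 2 := by
    intro g
    have h1 := ((Equiv.inv G).summable_iff (f := fun x => b g x ^ 2)).2 (hb.1 g)
    refine h1.congr fun x => ?_
    show b g x⁻¹ ^ 2 = _
    rw [hbw]
  have hs2 : Summable fun p : G × Fin S.card => (w p.1 - w (p.1 * lb S p.2)) ^ 2 := by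
    have h0 : 0 ≤ fun p : Fin S.card × G => (w p.2 - w (p.2 * lb S p.1)) ^ 2 := fun p => sq_nonneg _
    have h1 : Summable fun p : Fin S.card × G => (w p.2 - w (p.2 * lb S p.1)) ^ 2 :=
      (summable_prod_of_nonneg h0).2 ⟨fun k => hs (lb S k), Summable.of_finite⟩
    exact ((Equiv.prodComm G (Fin S.card)).summable_iff
      (f := fun p : Fin S.card × G => (w p.2 - w (p.2 * lb S p.1)) ^ 2)).2 h1
  obtain ⟨φ, hφ⟩ : ∃ φ : E G (Fin S.card), ∀ x l, φ (x, l) = w x - w (x * lb S l) := ⟨mk _ hs2, fun x l => rfl⟩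
  refine bt_pos (lb S) (φ := φ) ⟨w, Submodule.mem_top, fun x l => by rw [hφ, Pi.one_apply, one_mul]⟩ fun hmem => ?_
  have h1 : φ ∈ closure (KW (WN G) (lb S) 1 : Set (E G (Fin S.card))) := hmem
  obtain ⟨ψ, hψ, hd⟩ := Metric.mem_closure_iff.1 h1 (√ε) (Real.sqrt_pos.2 hε)
  obtain ⟨v, hv, hv'⟩ := hψ
  have hvs : Summable fun x => v x⁻¹ ^ 2 := by
    refine ((Equiv.inv G).summable_iff (f := fun x => v x ^ 2)).2 ?_
    refine summable_of_hasFiniteSupport ?_
    have h2 : (Function.support v).Finite := hv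
    refine h2.subset fun x hx => ?_
    rw [Function.mem_support] at hx ⊢
    intro h3
    rw [h3] at hx
    exact hx (by norm_num)
  obtain ⟨g, hg, h2⟩ := h (fun x => v x⁻¹) hvs
  obtain ⟨i, rfl⟩ := exists_lb hg
  have h3 : ∑' x, (b (lb S i) x - ((fun x => v x⁻¹) x - (fun x => v x⁻¹) ((lb S i)⁻¹ * x))) ^ 2 =
      ∑' x, (φ - ψ) (x, i) ^ 2 := by
    rw [← (Equiv.inv G).tsum_eq (fun x => (b (lb S i) x - ((fun x => v x⁻¹) x -
      (fun x => v x⁻¹) ((lb S i)⁻¹ * x))) ^ 2)]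
    refine tsum_congr fun x => ?_
    show (b (lb S i) x⁻¹ - (v x⁻¹⁻¹ - v ((lb S i)⁻¹ * x⁻¹)⁻¹)) ^ 2 = _
    rw [lp.coeFn_sub, Pi.sub_apply, hφ, hv' x i, hbw, inv_inv, mul_inv_rev, inv_inv, inv_inv, Pi.one_apply, one_mul]
  have h4 : ∑' x, (φ - ψ) (x, i) ^ 2 ≤ ‖φ - ψ‖ ^ 2 := by
    have h5 := (E_nsq (φ - ψ)).summable
    have h6 : Summable (fun x : G => (φ - ψ) (x, i) ^ 2) :=
      h5.comp_injective (i := fun y : G => (y, i)) (fun a b hab => congrArg Prod.fst hab)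
    rw [← (E_nsq (φ - ψ)).tsum_eq]
    exact h6.tsum_le_tsum_of_inj (fun y : G => (y, i)) (fun a b hab => congrArg Prod.fst hab)
      (fun p _ => sq_nonneg _) (fun x => le_rfl) h5
  rw [dist_eq_norm] at hd
  have h5 : ‖φ - ψ‖ ^ 2 < ε := by
    rw [← Real.sq_sqrt hε.le]
    exact pow_lt_pow_left₀ hd (norm_nonneg _) (by norm_num)
  rw [h3] at h2
  linarith

/-- **cocycles**: a finitely generated subgroup with a positive invariant -/
theorem exists_subgroup {b : G → G → ℝ} (hb : IsCocycle b) (h : ¬ IsLimInner b) :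
    ∃ (K : Subgroup G) (F : Finset K), Subgroup.closure (F : Set K) = ⊤ ∧ 0 < beta F := by
  obtain ⟨S, hS⟩ := bt_pos_of_cocycle hb h
  obtain ⟨K, hK⟩ : ∃ K, K = Subgroup.closure (S : Set G) := ⟨_, rfl⟩
  have hmem : ∀ s ∈ S, s ∈ K := fun s hs => by rw [hK]; exact Subgroup.subset_closure hs
  obtain ⟨F, hF⟩ : ∃ F : Finset K, F = S.attach.image (fun s => (⟨s.1, hmem s.1 s.2⟩ : K)) := ⟨_, rfl⟩
  have hFS : (fun k : K => (k : G)) '' (F : Set K) = (S : Set G) := by
    ext x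
    rw [hF]
    constructor
    · rintro ⟨k, hk, rfl⟩
      rw [Finset.mem_coe, Finset.mem_image] at hk
      obtain ⟨s, -, rfl⟩ := hk
      exact s.2
    · intro hx
      exact ⟨⟨x, hmem x hx⟩, by
        rw [Finset.mem_coe, Finset.mem_image]
        exact ⟨⟨x, hx⟩, Finset.mem_attach _ _, rfl⟩, rfl⟩
  have hFtop : Subgroup.closure (F : Set K) = ⊤ := by
    have h1 : (Subgroup.closure (F : Set K)).map K.subtype = K := by
      rw [MonoidHom.map_closure]
      show Subgroup.closure ((fun k : K => (k : G)) '' (F : Set K)) = K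
      rw [hFS, hK]
    rw [eq_top_iff]
    intro k _
    have h2 : (k : G) ∈ (Subgroup.closure (F : Set K)).map K.subtype := by
      rw [h1]
      exact k.2
    obtain ⟨k', hk', h3⟩ := h2
    have h4 : k' = k := Subtype.ext h3
    rw [← h4]
    exact hk'
  refine ⟨K, F, hFtop, lt_of_lt_of_le ?_ (bt_le F hFtop)⟩
  have hr : Set.range (fun i => ((lb F i : K) : G)) = (S : Set G) := by
    rw [← hFS]
    ext x
    constructor
    · rintro ⟨i, rfl⟩
      exact ⟨lb F i, (F.equivFin.symm i).2, rfl⟩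
    · rintro ⟨k, hk, rfl⟩
      obtain ⟨i, rfl⟩ := exists_lb hk
      exact ⟨i, rfl⟩
  have hr' : Set.range (lb S) = (S : Set G) := by
    ext x
    constructor
    · rintro ⟨i, rfl⟩
      exact (S.equivFin.symm i).2
    · intro hx
      obtain ⟨i, rfl⟩ := exists_lb hx
      exact ⟨i, rfl⟩
  have e : bt (lb S) = bt (fun i => ((lb F i : K) : G)) := by
    refine bt_congr _ _ (fun k => ?_) (fun l => ?_)
    · rw [hr', ← hr]
      exact Subgroup.subset_closure ⟨k, rfl⟩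
    · rw [hr, ← hr']
      exact Subgroup.subset_closure ⟨l, rfl⟩
  rw [← e]
  exact hS

end Pool.Agent.H79.CG
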