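import Mathlib
import Pool.Agent.H58.Lit.Basic
import Pool.Agent.H79.CG.Defs

/-!
# [H79 CG HALL] Sparse coset graphs

`H`, `K` subgroups of `G`; every finite `A` satisfies `#A ≤ C (#AH + #AK)` (numbers of the left cosets which meet `A`).
Hall's theorem: `y ∈ G` chooses `y H` or `y K`, with `C` places each. For `T = {a r (b r)⁻¹}`, `a r ∈ H`, `b r ∈ K`
distinct, the pair `(x, x')` with `x⁻¹ x' = a r (b r)⁻¹` is given to `x` if `x a r = x' b r` has chosen `H`: the indicator
function of `T` is a Littlewood function with constants `C`. If this happens for `H`, `K` of arbitrarily large orders with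
the same `C`, then `Lit G = ⊤`.
-/

set_option autoImplicit false

open scoped ENNReal
open Pool.Agent.H58.Lit

namespace Pool.Agent.H79.CG

universe u

variable {G : Type u} [Group G]

/-- a choice of `y H` or `y K` -/
theorem exists_choice (H K : Subgroup G) (C : ℕ) (hC : ∀ A : Finset G, A.card ≤ C * (nc H A + nc K A)) :
    ∃ (P : G → Prop) (c : G → Fin C),
      (∀ y z, P y → P z → (QuotientGroup.mk y : G ⧸ H) = QuotientGroup.mk z → c y = c z → y = z) ∧
      (∀ y z, ¬ P y → ¬ P z → (QuotientGroup.mk y : G ⧸ K) = QuotientGroup.mk z → c y = c z → y = z) := by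
  classical
  obtain ⟨t, ht⟩ : ∃ t : G → Finset (((G ⧸ H) ⊕ (G ⧸ K)) × Fin C), t = fun y =>
      ({Sum.inl (QuotientGroup.mk y), Sum.inr (QuotientGroup.mk y)} : Finset ((G ⧸ H) ⊕ (G ⧸ K))) ×ˢ
        Finset.univ := ⟨_, rfl⟩
  have h1 : ∀ A : Finset G, A.card ≤ (A.biUnion t).card := by
    intro A
    refine (hC A).trans ?_
    have h2 : A.biUnion t = ((A.image (fun a => (Sum.inl (QuotientGroup.mk a) : (G ⧸ H) ⊕ (G ⧸ K)))) ∪
        (A.image (fun a => (Sum.inr (QuotientGroup.mk a) : (G ⧸ H) ⊕ (G ⧸ K))))) ×ˢ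
          (Finset.univ : Finset (Fin C)) := by
      ext ⟨z, i⟩
      simp only [ht, Finset.mem_biUnion, Finset.mem_product, Finset.mem_insert, Finset.mem_singleton,
        Finset.mem_univ, and_true, Finset.mem_union, Finset.mem_image]
      constructor
      · rintro ⟨a, ha, h | h⟩
        · exact Or.inl ⟨a, ha, h.symm⟩
        · exact Or.inr ⟨a, ha, h.symm⟩
      · rintro (⟨a, ha, h⟩ | ⟨a, ha, h⟩)
        · exact ⟨a, ha, Or.inl h.symm⟩
        · exact ⟨a, ha, Or.inr h.symm⟩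
    rw [h2, Finset.card_product, Finset.card_univ, Fintype.card_fin, Finset.card_union_of_disjoint, mul_comm]
    · have e1 : (A.image (fun a => (Sum.inl (QuotientGroup.mk a) : (G ⧸ H) ⊕ (G ⧸ K)))).card = nc H A := by
        unfold nc
        rw [← Finset.card_image_of_injective (A.image (fun a => (QuotientGroup.mk a : G ⧸ H)))
          (Sum.inl_injective (α := G ⧸ H) (β := G ⧸ K)), Finset.image_image]
        rfl
      have e2 : (A.image (fun a => (Sum.inr (QuotientGroup.mk a) : (G ⧸ H) ⊕ (G ⧸ K)))).card = nc K A := by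
        unfold nc
        rw [← Finset.card_image_of_injective (A.image (fun a => (QuotientGroup.mk a : G ⧸ K)))
          (Sum.inr_injective (α := G ⧸ H) (β := G ⧸ K)), Finset.image_image]
        rfl
      rw [e1, e2]
    · rw [Finset.disjoint_left]
      intro z hz hz'
      rw [Finset.mem_image] at hz hz'
      obtain ⟨a, -, rfl⟩ := hz
      obtain ⟨b, -, hb⟩ := hz'
      cases hb
  obtain ⟨f, hf, hft⟩ := (Finset.all_card_le_biUnion_card_iff_exists_injective t).1 h1
  have hft' : ∀ y, (f y).1 = Sum.inl (QuotientGroup.mk y) ∨ (f y).1 = Sum.inr (QuotientGroup.mk y) := by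
    intro y
    have h3 := hft y
    rw [ht, Finset.mem_product, Finset.mem_insert, Finset.mem_singleton] at h3
    exact h3.1
  refine ⟨fun y => (f y).1 = Sum.inl (QuotientGroup.mk y), fun y => (f y).2, ?_, ?_⟩
  · intro y z hy hz hyz hc
    apply hf
    refine Prod.ext ?_ hc
    rw [hy, hz, hyz]
  · intro y z hy hz hyz hc
    apply hf
    refine Prod.ext ?_ hc
    rw [(hft' y).resolve_left hy, (hft' z).resolve_left hz, hyz]

omit [Group G] in
private theorem tsum_le (C : ℕ) (D : G → Prop) [DecidablePred D] (c : G → Fin C)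
    (hc : ∀ x y, D x → D y → c x = c y → x = y) :
    ∑' x, (if D x then 1 else 0 : ℝ≥0∞) ≤ (C : ℝ≥0∞) := by
  have hfin : {x | D x}.Finite := Set.Finite.of_injOn (t := Set.univ) (fun x _ => Set.mem_univ (c x))
    (fun x hx y hy => hc x y hx hy) Set.finite_univ
  have h1 : ∀ x, x ∉ hfin.toFinset → (if D x then 1 else 0 : ℝ≥0∞) = 0 := by
    intro x hx
    rw [Set.Finite.mem_toFinset] at hx
    exact if_neg hx
  rw [tsum_eq_sum h1]
  have h2 : ∑ x ∈ hfin.toFinset, (if D x then 1 else 0 : ℝ≥0∞) = ∑ x ∈ hfin.toFinset, 1 := by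
    refine Finset.sum_congr rfl fun x hx => ?_
    rw [Set.Finite.mem_toFinset] at hx
    exact if_pos hx
  rw [h2, Finset.sum_const, nsmul_eq_mul, mul_one]
  have h3 : hfin.toFinset.card ≤ C := by
    have h4 := Finset.card_le_card_of_injOn (s := hfin.toFinset) (t := (Finset.univ : Finset (Fin C))) c
      (fun x _ => Finset.mem_univ _) (fun x hx y hy => hc x y (by simpa using hx) (by simpa using hy))
    rw [Finset.card_univ, Fintype.card_fin] at h4
    exact h4
  exact_mod_cast h3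

/-- the indicator function of the finite set `T` is a Littlewood function with constants `C` -/
def Sparse (C : ℕ) (T : Finset G) : Prop :=
  ∃ h₁ h₂ : G → G → ℝ≥0∞, (∀ x y, x⁻¹ * y ∈ T → 1 ≤ h₁ x y + h₂ x y) ∧
    (∀ x, ∑' y, h₁ x y ≤ C) ∧ (∀ y, ∑' x, h₂ x y ≤ C)

/-- sparse sets from sparse coset graphs -/
theorem exists_sparse (H K : Subgroup G) (C : ℕ) (hC : ∀ A : Finset G, A.card ≤ C * (nc H A + nc K A))
    (n : ℕ) (a : Fin n → H) (ha : Function.Injective a) (b : Fin n → K) (hb : Function.Injective b) :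
    ∃ T : Finset G, Sparse C T ∧ n ≤ 2 * C * T.card := by
  classical
  obtain ⟨P, c, hP, hP'⟩ := exists_choice H K C hC
  obtain ⟨t, ht⟩ : ∃ t : Fin n → G, t = fun r => (a r : G) * (b r : G)⁻¹ := ⟨_, rfl⟩
  refine ⟨Finset.univ.image t, ?_, ?_⟩
  · refine ⟨fun x y => if ∃ r, x⁻¹ * y = t r ∧ P (x * a r) then 1 else 0,
      fun x y => if ∃ r, x⁻¹ * y = t r ∧ ¬ P (x * a r) then 1 else 0, ?_, ?_, ?_⟩
    · intro x y hxy
      rw [Finset.mem_image] at hxy
      obtain ⟨r, -, hr⟩ := hxy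
      by_cases h3 : P (x * a r)
      · have h4 : ∃ r, x⁻¹ * y = t r ∧ P (x * a r) := ⟨r, hr.symm, h3⟩
        simp only [if_pos h4]
        exact le_add_of_nonneg_right zero_le
      · have h4 : ∃ r, x⁻¹ * y = t r ∧ ¬ P (x * a r) := ⟨r, hr.symm, h3⟩
        simp only [if_pos h4]
        exact le_add_of_nonneg_left zero_le
    · intro x
      by_cases hn : Nonempty (Fin n)
      · have hr : ∀ y, ∃ r, (∃ r, x⁻¹ * y = t r ∧ P (x * a r)) → x⁻¹ * y = t r ∧ P (x * a r) := by
          intro y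
          by_cases h : ∃ r, x⁻¹ * y = t r ∧ P (x * a r)
          · obtain ⟨r, hr⟩ := h
            exact ⟨r, fun _ => hr⟩
          · exact ⟨Classical.choice hn, fun h' => absurd h' h⟩
        choose r hr using hr
        refine tsum_le C (fun y => ∃ r, x⁻¹ * y = t r ∧ P (x * a r)) (fun y => c (x * a (r y))) ?_
        intro y z hy hz hyz
        have h1 := hr y hy
        have h2 := hr z hz
        have h3 := hP _ _ h1.2 h2.2 (by
          rw [QuotientGroup.eq]
          have e5 : (x * (a (r y) : G))⁻¹ * (x * (a (r z) : G)) = (a (r y) : G)⁻¹ * a (r z) := by group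
          rw [e5]
          exact H.mul_mem (H.inv_mem (a (r y)).2) (a (r z)).2) hyz
        have h4 : r y = r z := ha (Subtype.ext (mul_left_cancel h3))
        have h5 : x⁻¹ * y = x⁻¹ * z := by rw [h1.1, h2.1, h4]
        exact mul_left_cancel h5
      · have h0 : ∀ y, ¬ ∃ r, x⁻¹ * y = t r ∧ P (x * a r) := fun y ⟨r, _⟩ => hn ⟨r⟩
        simp only [if_neg (h0 _), tsum_zero]
        exact zero_le
    · intro y
      by_cases hn : Nonempty (Fin n)
      · have hr : ∀ x, ∃ r, (∃ r, x⁻¹ * y = t r ∧ ¬ P (x * a r)) → x⁻¹ * y = t r ∧ ¬ P (x * a r) := by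
          intro x
          by_cases h : ∃ r, x⁻¹ * y = t r ∧ ¬ P (x * a r)
          · obtain ⟨r, hr⟩ := h
            exact ⟨r, fun _ => hr⟩
          · exact ⟨Classical.choice hn, fun h' => absurd h' h⟩
        choose r hr using hr
        refine tsum_le C (fun x => ∃ r, x⁻¹ * y = t r ∧ ¬ P (x * a r)) (fun x => c (x * a (r x))) ?_
        intro x z hx hz hxz
        have h1 := hr x hx
        have h2 := hr z hz
        have e1 : x * a (r x) = y * b (r x) := by
          have h : x⁻¹ * y = (a (r x) : G) * (b (r x) : G)⁻¹ := by rw [h1.1, ht]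
          have e : y = x * (a (r x) * (b (r x) : G)⁻¹) := by rw [← h]; group
          rw [e]; group
        have e2 : z * a (r z) = y * b (r z) := by
          have h : z⁻¹ * y = (a (r z) : G) * (b (r z) : G)⁻¹ := by rw [h2.1, ht]
          have e : y = z * (a (r z) * (b (r z) : G)⁻¹) := by rw [← h]; group
          rw [e]; group
        have h3 := hP' _ _ h1.2 h2.2 (by
          rw [QuotientGroup.eq, e1, e2]
          have e5 : (y * (b (r x) : G))⁻¹ * (y * (b (r z) : G)) = (b (r x) : G)⁻¹ * b (r z) := by group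
          rw [e5]
          exact K.mul_mem (K.inv_mem (b (r x)).2) (b (r z)).2) hxz
        have h3' := h3
        rw [e1, e2] at h3'
        have h4 : r x = r z := hb (Subtype.ext (mul_left_cancel h3'))
        have h5 := h1.1
        rw [h4, ← h2.1] at h5
        exact inv_injective (mul_right_cancel h5)
      · have h0 : ∀ x, ¬ ∃ r, x⁻¹ * y = t r ∧ ¬ P (x * a r) := fun x ⟨r, _⟩ => hn ⟨r⟩
        simp only [if_neg (h0 _), tsum_zero]
        exact zero_le
  · have h0 := Finset.card_le_mul_card_image (f := t) (Finset.univ : Finset (Fin n)) (2 * C) ?_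
    · rw [Finset.card_univ, Fintype.card_fin] at h0
      exact h0
    intro g hg
    obtain ⟨R, hR⟩ : ∃ R : Finset (Fin n), R = Finset.univ.filter (fun r => t r = g) := ⟨_, rfl⟩
    rw [← hR]
    have h1 := hC (R.image fun r => (a r : G))
    have hinj : Function.Injective (fun r => (a r : G)) := fun r r' hrr => ha (Subtype.ext hrr)
    rw [Finset.card_image_of_injective _ hinj] at h1
    have h2 : nc H (R.image fun r => (a r : G)) ≤ 1 := by
      unfold nc
      rw [Finset.card_le_one]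
      intro x hx y hy
      simp only [Finset.mem_image] at hx hy
      obtain ⟨-, ⟨r, -, rfl⟩, rfl⟩ := hx
      obtain ⟨-, ⟨r', -, rfl⟩, rfl⟩ := hy
      rw [QuotientGroup.eq]
      exact H.mul_mem (H.inv_mem (a r).2) (a r').2
    have h3 : nc K (R.image fun r => (a r : G)) ≤ 1 := by
      unfold nc
      rw [Finset.card_le_one]
      intro x hx y hy
      simp only [Finset.mem_image] at hx hy
      obtain ⟨-, ⟨r, hr, rfl⟩, rfl⟩ := hx
      obtain ⟨-, ⟨r', hr', rfl⟩, rfl⟩ := hy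
      have e1 : (a r : G) * (b r : G)⁻¹ = g := by rw [hR, Finset.mem_filter, ht] at hr; exact hr.2
      have e2 : (a r' : G) * (b r' : G)⁻¹ = g := by rw [hR, Finset.mem_filter, ht] at hr'; exact hr'.2
      have e3 : (a r : G) = g * b r := by rw [← e1]; group
      have e4 : (a r' : G) = g * b r' := by rw [← e2]; group
      rw [QuotientGroup.eq, e3, e4]
      have e5 : (g * (b r : G))⁻¹ * (g * (b r' : G)) = (b r : G)⁻¹ * b r' := by group
      rw [e5]
      exact K.mul_mem (K.inv_mem (b r).2) (b r').2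
    have h4 : C * (nc H (R.image fun r => (a r : G)) + nc K (R.image fun r => (a r : G))) ≤ C * 2 :=
      Nat.mul_le_mul_left C (by omega)
    omega

/-- sparse sets of unbounded size with the same constant -/
theorem lit_top_of_sparse (C : ℕ) (hC : ∀ n : ℕ, ∃ T : Finset G, Sparse C T ∧ n ≤ T.card) : Lit G = ⊤ := by
  classical
  choose T hT hTc using fun k : ℕ => hC (2 ^ (k * k))
  choose h₁ h₂ hs hr hc using hT
  obtain ⟨F, hF⟩ : ∃ F : G → ℝ≥0∞, F = fun g => ∑' k : ℕ, (if g ∈ T k then (2⁻¹ : ℝ≥0∞) ^ k else 0) := ⟨_, rfl⟩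
  have hgeo : ∑' k : ℕ, (2⁻¹ : ℝ≥0∞) ^ k = 2 := by
    rw [ENNReal.tsum_geometric, ENNReal.one_sub_inv_two, inv_inv]
  have hFtop : ∀ g, F g ≠ ⊤ := by
    intro g
    have h1 : F g ≤ ∑' k : ℕ, (2⁻¹ : ℝ≥0∞) ^ k := by
      rw [hF]
      refine ENNReal.tsum_le_tsum fun k => ?_
      by_cases hk : g ∈ T k
      · rw [if_pos hk]
      · rw [if_neg hk]
        exact bot_le
    rw [hgeo] at h1
    exact ne_top_of_le_ne_top (by simp) h1
  have hFk : ∀ k g, g ∈ T k → (2⁻¹ : ℝ≥0∞) ^ k ≤ F g := by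
    intro k g hg
    rw [hF]
    have h1 : (if g ∈ T k then (2⁻¹ : ℝ≥0∞) ^ k else 0) ≤
        ∑' k : ℕ, (if g ∈ T k then (2⁻¹ : ℝ≥0∞) ^ k else 0) := ENNReal.le_tsum k
    rw [if_pos hg] at h1
    exact h1
  have hnorm : ∀ g, ‖(((F g).toReal : ℝ) : ℂ)‖ₑ = F g := by
    intro g
    rw [← ofReal_norm, Complex.norm_real, Real.norm_of_nonneg ENNReal.toReal_nonneg, ENNReal.ofReal_toReal (hFtop g)]
  have hL : IsLittlewood (fun g => (((F g).toReal : ℝ) : ℂ)) := by
    refine isLittlewood_of_le (h₁ := fun x y => ∑' k : ℕ, (2⁻¹ : ℝ≥0∞) ^ k * h₁ k x y)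
      (h₂ := fun x y => ∑' k : ℕ, (2⁻¹ : ℝ≥0∞) ^ k * h₂ k x y) (C₁ := 2 * C) (C₂ := 2 * C)
      (ENNReal.mul_lt_top (by simp) (ENNReal.natCast_lt_top C)) (ENNReal.mul_lt_top (by simp) (ENNReal.natCast_lt_top C))
      ?_ ?_ ?_
    · intro x y
      rw [hnorm, hF, ← ENNReal.tsum_add]
      refine ENNReal.tsum_le_tsum fun k => ?_
      split_ifs with h
      · rw [← mul_add]
        exact le_mul_of_one_le_right zero_le (hs k x y h)
      · exact zero_le
    · intro x
      rw [ENNReal.tsum_comm]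
      calc ∑' k : ℕ, ∑' y, (2⁻¹ : ℝ≥0∞) ^ k * h₁ k x y
          = ∑' k : ℕ, (2⁻¹ : ℝ≥0∞) ^ k * ∑' y, h₁ k x y := by simp_rw [ENNReal.tsum_mul_left]
        _ ≤ ∑' k : ℕ, (2⁻¹ : ℝ≥0∞) ^ k * C := ENNReal.tsum_le_tsum fun k => mul_le_mul_right (hr k x) _
        _ = 2 * C := by rw [ENNReal.tsum_mul_right, hgeo]
    · intro y
      rw [ENNReal.tsum_comm]
      calc ∑' k : ℕ, ∑' x, (2⁻¹ : ℝ≥0∞) ^ k * h₂ k x y
          = ∑' k : ℕ, (2⁻¹ : ℝ≥0∞) ^ k * ∑' x, h₂ k x y := by simp_rw [ENNReal.tsum_mul_left]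
        _ ≤ ∑' k : ℕ, (2⁻¹ : ℝ≥0∞) ^ k * C := ENNReal.tsum_le_tsum fun k => mul_le_mul_right (hc k y) _
        _ = 2 * C := by rw [ENNReal.tsum_mul_right, hgeo]
  unfold Lit
  rw [sInf_eq_top]
  rintro p ⟨hp, hp', h⟩
  exfalso
  have h1 := (memℓp_iff_tsum hp hp').1 (h _ hL)
  apply h1
  simp_rw [hnorm]
  obtain ⟨m, hm⟩ := exists_nat_ge p.toReal
  refine ENNReal.eq_top_of_forall_nnreal_le fun r => ?_
  obtain ⟨n, hn⟩ := exists_nat_ge (r : ℝ)
  have hpos : 0 < p.toReal := ENNReal.toReal_pos hp.ne' hp'.ne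
  obtain ⟨k, hk⟩ : ∃ k, k = m + (n + 1) := ⟨_, rfl⟩
  have h3 : ∀ g ∈ T k, ((2⁻¹ : ℝ≥0∞) ^ (k * m)) ≤ F g ^ p.toReal := by
    intro g hg
    calc ((2⁻¹ : ℝ≥0∞) ^ (k * m)) = ((2⁻¹ : ℝ≥0∞) ^ k) ^ (m : ℝ) := by rw [ENNReal.rpow_natCast, pow_mul]
      _ ≤ ((2⁻¹ : ℝ≥0∞) ^ k) ^ p.toReal := by
          refine ENNReal.rpow_le_rpow_of_exponent_ge ?_ hm
          exact pow_le_one₀ zero_le (by simp)
      _ ≤ F g ^ p.toReal := ENNReal.rpow_le_rpow (hFk k g hg) hpos.le
  calc (r : ℝ≥0∞) ≤ ((n + 1 : ℕ) : ℝ≥0∞) := by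
        have : r ≤ ((n + 1 : ℕ) : NNReal) := by
          rw [← NNReal.coe_le_coe]
          push_cast
          linarith
        exact_mod_cast this
    _ ≤ ((2 ^ (k * (n + 1)) : ℕ) : ℝ≥0∞) := by
        have : n + 1 ≤ 2 ^ (k * (n + 1)) := by
          have h5 : n + 1 < 2 ^ (n + 1) := Nat.lt_two_pow_self
          have h6 : 2 ^ (n + 1) ≤ 2 ^ (k * (n + 1)) :=
            Nat.pow_le_pow_right (by norm_num) (Nat.le_mul_of_pos_left _ (by omega))
          omega
        exact_mod_cast this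
    _ = ((2 ^ (k * k) : ℕ) : ℝ≥0∞) * (2⁻¹ : ℝ≥0∞) ^ (k * m) := by
        have e : k * k = k * (n + 1) + k * m := by
          have : k * k = k * (m + (n + 1)) := by rw [← hk]
          rw [this]; ring
        rw [e, pow_add]
        push_cast
        rw [mul_assoc, ← mul_pow, ENNReal.mul_inv_cancel (by simp) (by simp), one_pow, mul_one]
    _ ≤ ((T k).card : ℝ≥0∞) * (2⁻¹ : ℝ≥0∞) ^ (k * m) := by
        refine mul_le_mul_left ?_ _
        exact_mod_cast hTc k
    _ = ∑ g ∈ T k, (2⁻¹ : ℝ≥0∞) ^ (k * m) := by rw [Finset.sum_const, nsmul_eq_mul]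
    _ ≤ ∑ g ∈ T k, F g ^ p.toReal := Finset.sum_le_sum h3
    _ ≤ ∑' g, F g ^ p.toReal := ENNReal.sum_le_tsum _

/-- **sparse coset graphs** of subgroups of unbounded orders -/
theorem lit_top_of_subgroups (C : ℕ) (hC : ∀ n : ℕ, ∃ H K : Subgroup G, (∃ a : Fin n → H, Function.Injective a) ∧
    (∃ b : Fin n → K, Function.Injective b) ∧ ∀ A : Finset G, A.card ≤ C * (nc H A + nc K A)) : Lit G = ⊤ := by
  refine lit_top_of_sparse C fun n => ?_
  obtain ⟨H, K, ⟨a, ha⟩, ⟨b, hb⟩, h⟩ := hC (2 * C * n)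
  obtain ⟨T, hT, hn⟩ := exists_sparse H K C h _ a ha b hb
  refine ⟨T, hT, ?_⟩
  rcases Nat.eq_zero_or_pos C with hC0 | hC0
  · exfalso
    have h1 := h {1}
    rw [hC0, zero_mul, Finset.card_singleton] at h1
    omega
  · exact Nat.le_of_mul_le_mul_left hn (by omega)

end Pool.Agent.H79.CG
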