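import Mathlib
import Pool.Agent.H79.CG.Hall

/-!
# [H79 CG OVER] Subquotients

A sparse set of a subgroup is sparse in the group; a sparse set of a quotient has a sparse lift.
-/

set_option autoImplicit false

open scoped ENNReal
open Pool.Agent.H58.Lit

namespace Pool.Agent.H79.CG

universe u

variable {Γ : Type u} [Group Γ]

open Classical in
/-- sparse sets of subgroups -/
theorem Sparse.over (G : Subgroup Γ) {C : ℕ} {T : Finset G} (h : Sparse C T) :
    Sparse C (T.map ⟨Subtype.val, Subtype.val_injective⟩) := by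
  obtain ⟨h₁, h₂, h3, h4, h5⟩ := h
  obtain ⟨r, hr⟩ : ∃ r : Γ → Γ, r = fun x => Quotient.out (QuotientGroup.mk x : Γ ⧸ G) := ⟨_, rfl⟩
  have hr1 : ∀ x, (r x)⁻¹ * x ∈ G := by
    intro x
    rw [hr, ← QuotientGroup.eq]
    exact QuotientGroup.out_eq' _
  have hr2 : ∀ x y, x⁻¹ * y ∈ G → r x = r y := by
    intro x y hxy
    rw [hr]
    have : (QuotientGroup.mk x : Γ ⧸ G) = QuotientGroup.mk y := QuotientGroup.eq.2 hxy
    show Quotient.out (QuotientGroup.mk x : Γ ⧸ G) = Quotient.out (QuotientGroup.mk y : Γ ⧸ G)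
    rw [this]
  obtain ⟨g, hg⟩ : ∃ g : Γ → G, g = fun x => ⟨(r x)⁻¹ * x, hr1 x⟩ := ⟨_, rfl⟩
  have hg' : ∀ x, r x * (g x : Γ) = x := fun x => by rw [hg]; exact mul_inv_cancel_left _ _
  have key : ∀ (x : Γ) (F : G → ℝ≥0∞), ∑' y, (if x⁻¹ * y ∈ G then F (g y) else 0) = ∑' z : G, F z := by
    intro x F
    have h6 : ∑' z : G, F z = ∑' z : G, (fun y => if x⁻¹ * y ∈ G then F (g y) else 0) (r x * (z : Γ)) := by
      refine tsum_congr fun z => ?_
      have h7 : x⁻¹ * (r x * (z : Γ)) ∈ G := by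
        have h8 := G.mul_mem (G.inv_mem (hr1 x)) z.2
        have e : ((r x)⁻¹ * x)⁻¹ * (z : Γ) = x⁻¹ * (r x * (z : Γ)) := by group
        rwa [e] at h8
      have h9 : r x = r (r x * (z : Γ)) := hr2 _ _ h7
      have h10 : g (r x * (z : Γ)) = z := by
        apply Subtype.ext
        apply mul_left_cancel (a := r x)
        have h11 := hg' (r x * (z : Γ))
        rw [← h9] at h11
        exact h11
      show F z = if x⁻¹ * (r x * (z : Γ)) ∈ G then F (g (r x * (z : Γ))) else 0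
      rw [if_pos h7, h10]
    rw [h6]
    have hinj : Function.Injective (fun z : G => r x * (z : Γ)) := fun a b hab =>
      Subtype.ext (mul_left_cancel hab)
    refine (hinj.tsum_eq (f := fun y => if x⁻¹ * y ∈ G then F (g y) else 0) ?_).symm
    intro y hy
    have h7 : x⁻¹ * y ∈ G := by
      by_contra hcon
      exact hy (if_neg hcon)
    refine ⟨g y, ?_⟩
    show r x * (g y : Γ) = y
    rw [hr2 x y h7, hg']
  refine ⟨fun x y => if x⁻¹ * y ∈ G then h₁ (g x) (g y) else 0,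
    fun x y => if x⁻¹ * y ∈ G then h₂ (g x) (g y) else 0, ?_, ?_, ?_⟩
  · intro x y hxy
    rw [Finset.mem_map] at hxy
    obtain ⟨t, ht, ht'⟩ := hxy
    have ht2 : (t : Γ) = x⁻¹ * y := ht'
    have h6 : x⁻¹ * y ∈ G := by
      rw [← ht2]
      exact t.2
    simp only [if_pos h6]
    apply h3
    have h7 : (g x)⁻¹ * g y = t := by
      apply Subtype.ext
      rw [ht2]
      have h8 := hg' x
      have h9 := hg' y
      rw [← hr2 x y h6] at h9
      have e : x⁻¹ * y = (r x * (g x : Γ))⁻¹ * (r x * (g y : Γ)) := by rw [h8, h9]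
      rw [e, Subgroup.coe_mul, Subgroup.coe_inv]
      group
    rw [h7]
    exact ht
  · intro x
    rw [key x (fun z => h₁ (g x) z)]
    exact h4 (g x)
  · intro y
    have e : (fun x => if x⁻¹ * y ∈ G then h₂ (g x) (g y) else 0) =
        fun x => if y⁻¹ * x ∈ G then h₂ (g x) (g y) else 0 := by
      funext x
      have : x⁻¹ * y ∈ G ↔ y⁻¹ * x ∈ G := by
        rw [← G.inv_mem_iff (x := x⁻¹ * y), mul_inv_rev, inv_inv]
      simp only [this]
    rw [e, key y (fun z => h₂ z (g y))]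
    exact h5 (g y)

private theorem tsum_le_of_inj {P G : Type u} (e : P → G) (D : Set P) (he : Set.InjOn e D) (f : P → ℝ≥0∞)
    (F : G → ℝ≥0∞) (h0 : ∀ y, y ∉ D → f y = 0) (h1 : ∀ y ∈ D, f y ≤ F (e y)) : ∑' y, f y ≤ ∑' z, F z := by
  have h2 : ∑' y, f y = ∑' y : D, f y := by
    refine (tsum_subtype_eq_of_support_subset ?_).symm
    intro y hy
    by_contra hcon
    exact hy (h0 y hcon)
  rw [h2]
  have hinj : Function.Injective (fun y : D => e y) := fun a b hab => Subtype.ext (he a.2 b.2 hab)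
  calc ∑' y : D, f y ≤ ∑' y : D, F (e y) := ENNReal.tsum_le_tsum fun y => h1 y y.2
    _ ≤ ∑' z, F z := ENNReal.tsum_comp_le_tsum_of_injective hinj F

open Classical in
/-- sparse sets of quotients -/
theorem Sparse.lift {P G : Type u} [Group P] [Group G] (φ : P →* G) (s : G ↪ P) (hs : ∀ g, φ (s g) = g) {C : ℕ}
    {T : Finset G} (h : Sparse C T) : Sparse C (T.map s) := by
  obtain ⟨h₁, h₂, h3, h4, h5⟩ := h
  have key : ∀ x y : P, x⁻¹ * y ∈ T.map s → ((φ x)⁻¹ * φ y ∈ T ∧ s ((φ x)⁻¹ * φ y) = x⁻¹ * y) := by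
    intro x y hxy
    rw [Finset.mem_map] at hxy
    obtain ⟨t, ht, ht'⟩ := hxy
    have e : (φ x)⁻¹ * φ y = t := by rw [← map_inv, ← map_mul, ← ht', hs]
    rw [e]
    exact ⟨ht, ht'⟩
  refine ⟨fun x y => if x⁻¹ * y ∈ T.map s then h₁ (φ x) (φ y) else 0,
    fun x y => if x⁻¹ * y ∈ T.map s then h₂ (φ x) (φ y) else 0, ?_, ?_, ?_⟩
  · intro x y hxy
    simp only [if_pos hxy]
    exact h3 _ _ (key x y hxy).1
  · intro x
    refine (tsum_le_of_inj φ {y | x⁻¹ * y ∈ T.map s} ?_ _ (fun z => h₁ (φ x) z) (fun y hy => if_neg hy)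
      (fun y hy => (if_pos hy).le)).trans (h4 (φ x))
    intro y hy z hz hyz
    have e1 := (key x y hy).2
    have e2 := (key x z hz).2
    have hyz' : φ y = φ z := hyz
    rw [hyz'] at e1
    rw [e1] at e2
    exact mul_left_cancel e2
  · intro y
    refine (tsum_le_of_inj φ {x | x⁻¹ * y ∈ T.map s} ?_ _ (fun z => h₂ z (φ y)) (fun x hx => if_neg hx)
      (fun x hx => (if_pos hx).le)).trans (h5 (φ y))
    intro x hx z hz hxz
    have e1 := (key x y hx).2
    have e2 := (key z y hz).2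
    have hxz' : φ x = φ z := hxz
    rw [hxz'] at e1
    rw [e1] at e2
    exact inv_injective (mul_right_cancel e2)

/-- sparse sets of unbounded size with one constant -/
def SparseSets (G : Type u) [Group G] : Prop := ∃ C : ℕ, ∀ n : ℕ, ∃ T : Finset G, Sparse C T ∧ n ≤ T.card

theorem SparseSets.lit {G : Type u} [Group G] (h : SparseSets G) : Lit G = ⊤ := by
  obtain ⟨C, hC⟩ := h
  exact lit_top_of_sparse C hC

theorem SparseSets.over (P : Subgroup Γ) (h : SparseSets P) : SparseSets Γ := by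
  obtain ⟨C, hC⟩ := h
  refine ⟨C, fun n => ?_⟩
  obtain ⟨T, hT, hn⟩ := hC n
  exact ⟨_, hT.over P, by rw [Finset.card_map]; exact hn⟩

theorem SparseSets.lift {P G : Type u} [Group P] [Group G] (φ : P →* G) (hφ : Function.Surjective φ)
    (h : SparseSets G) : SparseSets P := by
  obtain ⟨C, hC⟩ := h
  choose s hs using hφ
  have hsinj : Function.Injective s := fun a b hab => by rw [← hs a, hab, hs b]
  refine ⟨C, fun n => ?_⟩
  obtain ⟨T, hT, hn⟩ := hC n
  exact ⟨_, hT.lift φ ⟨s, hsinj⟩ hs, by rw [Finset.card_map]; exact hn⟩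

/-- **sparse coset graphs** -/
theorem sparseSets_of_subgroups {G : Type u} [Group G] (C : ℕ) (hC : ∀ n : ℕ, ∃ H K : Subgroup G,
    (∃ a : Fin n → H, Function.Injective a) ∧ (∃ b : Fin n → K, Function.Injective b) ∧
    ∀ A : Finset G, A.card ≤ C * (nc H A + nc K A)) : SparseSets G := by
  refine ⟨C, fun n => ?_⟩
  obtain ⟨H, K, ⟨a, ha⟩, ⟨b, hb⟩, h⟩ := hC (2 * C * n)
  obtain ⟨T, hT, hn⟩ := exists_sparse H K C h _ a ha b hb
  refine ⟨T, hT, ?_⟩
  rcases Nat.eq_zero_or_pos C with hC0 | hC0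
  · exfalso
    have h1 := h {1}
    rw [hC0, zero_mul, Finset.card_singleton] at h1
    omega
  · exact Nat.le_of_mul_le_mul_left hn (by omega)

end Pool.Agent.H79.CG
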