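import Mathlib
import Pool.Agent.H79.CG.Over
import Pool.Agent.H79.CG.Cnt
import Pool.Agent.H79.CG.Coc
import Pool.Agent.H59.CG.NoTors

/-!
# [H79 CG MAIN] Littlewood exponents of groups with positive first `ℓ²`-Betti number
-/

set_option autoImplicit false

open scoped Classical ENNReal
open Pool.Agent.H58.Lit

noncomputable section

namespace Pool.Agent.H79.CG

universe u

variable {G : Type u} [Group G]

/-- from the count to sparse sets -/
theorem sparse_of_count (c : ℝ) (hc : 0 < c) (d : ℕ) (h : ∀ n : ℕ, ∃ H : Subgroup G,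
    (∃ a : Fin n → H, Function.Injective a) ∧ ∃ s : G, ∀ A : Finset G,
      (A.card : ℝ) * c ≤ d * ncs H s A) : SparseSets G := by
  refine sparseSets_of_subgroups ⌈(d : ℝ) / c⌉₊ fun n => ?_
  obtain ⟨H, ⟨a, ha⟩, s, hs⟩ := h n
  refine ⟨H, H.map (MulAut.conj s).toMonoidHom, ⟨a, ha⟩,
    ⟨fun i => ⟨MulAut.conj s (a i), Subgroup.mem_map_of_mem _ (a i).2⟩,
      fun i j hij => ha (Subtype.ext ((MulAut.conj s).injective (congrArg Subtype.val hij)))⟩, fun A => ?_⟩
  have h1 := hs A
  have h2 : (A.card : ℝ) ≤ (d : ℝ) / c * ncs H s A := by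
    rw [div_mul_eq_mul_div, le_div_iff₀ hc]
    exact h1
  have h3 : ((ncs H s A : ℕ) : ℝ) ≤ ((nc H A + nc (H.map (MulAut.conj s).toMonoidHom) A : ℕ) : ℝ) := by
    exact_mod_cast nc_union_le H s A
  have h4 : (A.card : ℝ) ≤ ((⌈(d : ℝ) / c⌉₊ * (nc H A + nc (H.map (MulAut.conj s).toMonoidHom) A) : ℕ) : ℝ) := by
    rw [Nat.cast_mul]
    refine h2.trans (mul_le_mul (Nat.le_ceil _) h3 (Nat.cast_nonneg _) (Nat.cast_nonneg _))
  exact_mod_cast h4

omit [Group G] in
private theorem range_lb' (S : Finset G) : Set.range (lb S) = (S : Set G) := by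
  ext x
  constructor
  · rintro ⟨i, rfl⟩
    exact (S.equivFin.symm i).2
  · intro hx
    exact ⟨S.equivFin ⟨x, hx⟩, by rw [lb, Equiv.symm_apply_apply]⟩

private theorem closure_lb {S : Finset G} (hS : Subgroup.closure (S : Set G) = ⊤) :
    Subgroup.closure (Set.range (lb S)) = ⊤ := by
  rw [range_lb', hS]

private theorem mem_closure_lb {H : Subgroup G} {F : Finset H} (hF : Subgroup.closure (F : Set H) = ⊤) (h : G)
    (hh : h ∈ H) : h ∈ Subgroup.closure (Set.range fun i => ((lb F i : H) : G)) := by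
  have h1 : (⟨h, hh⟩ : H) ∈ Subgroup.closure (Set.range (lb F)) := by
    rw [closure_lb hF]
    exact Subgroup.mem_top _
  have h2 := Subgroup.mem_map_of_mem H.subtype h1
  rw [MonoidHom.map_closure, ← Set.range_comp] at h2
  exact h2

/-- **the count of cosets** -/
theorem count (S : Finset G) (hS : Subgroup.closure (S : Set G) = ⊤) (H : Subgroup G) (F : Finset H)
    (hF : Subgroup.closure (F : Set H) = ⊤) (hb : beta F < beta S) :
    ∃ s ∈ S, ∀ A : Finset G, A.card * (beta S - beta F) ≤ S.card * ncs H s A := by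
  have h1 := beta_le S
  have h2 := bt_le F hF
  obtain ⟨l, hl⟩ := exists_count (lb S) (fun i => ((lb F i : H) : G)) H (mem_closure_lb hF)
    (fun k => by rw [closure_lb hS]; exact Subgroup.mem_top _) (by linarith)
  refine ⟨lb S l, (S.equivFin.symm l).2, fun A => ?_⟩
  have h3 := hl A
  rw [Fintype.card_fin] at h3
  refine le_trans ?_ h3
  exact mul_le_mul_of_nonneg_left (by linarith) (Nat.cast_nonneg _)

/-- an infinite subgroup with a smaller invariant -/
theorem sparse_of_infinite (S : Finset G) (hS : Subgroup.closure (S : Set G) = ⊤) (H : Subgroup G)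
    [Infinite H] (F : Finset H) (hF : Subgroup.closure (F : Set H) = ⊤) (hb : beta F < beta S) : SparseSets G := by
  obtain ⟨s, -, hs⟩ := count S hS H F hF hb
  refine sparse_of_count (beta S - beta F) (by linarith) S.card fun n => ⟨H, ?_, s, hs⟩
  exact ⟨fun i => Infinite.natEmbedding H i, fun i j hij => Fin.ext ((Infinite.natEmbedding H).injective hij)⟩

/-- an element of infinite order -/
theorem sparse_of_element (S : Finset G) (hS : Subgroup.closure (S : Set G) = ⊤) (hb : 0 < beta S)
    (h : G) (hh : ¬ IsOfFinOrder h) : SparseSets G := by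
  have : Infinite (Subgroup.zpowers h) := Set.infinite_coe_iff.2 (infinite_zpowers.2 hh)
  refine sparse_of_infinite S hS (Subgroup.zpowers h) {⟨h, Subgroup.mem_zpowers h⟩} ?_ ?_
  · rw [Finset.coe_singleton, eq_top_iff]
    rintro ⟨x, hx⟩ -
    obtain ⟨n, rfl⟩ := Subgroup.mem_zpowers_iff.1 hx
    rw [Subgroup.mem_closure_singleton]
    exact ⟨n, rfl⟩
  · rw [beta_zpowers h hh]
    exact hb

/-- finite subgroups of unbounded order -/
theorem sparse_of_finite (S : Finset G) (hS : Subgroup.closure (S : Set G) = ⊤) (hb : 0 < beta S)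
    (h : ∀ n : ℕ, ∃ H : Subgroup G, Finite H ∧ n ≤ Nat.card H) : SparseSets G := by
  refine sparse_of_count (beta S) hb S.card fun n => ?_
  obtain ⟨H, hH, hn⟩ := h n
  have : Fintype H := Fintype.ofFinite H
  have h1 := beta_univ (G := H)
  obtain ⟨s, -, hs⟩ := count S hS H Finset.univ (by rw [Finset.coe_univ, Subgroup.closure_univ]) (by rw [h1]; exact hb)
  rw [h1, sub_zero] at hs
  refine ⟨H, ?_, s, hs⟩
  rw [Nat.card_eq_fintype_card] at hn
  exact ⟨fun i => (Fintype.equivFin H).symm (Fin.castLE hn i),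
    fun i j hij => Fin.castLE_injective hn ((Fintype.equivFin H).symm.injective hij)⟩

/-- the invariant of a finite group vanishes -/
theorem infinite_of_beta_pos (S : Finset G) (hb : 0 < beta S) : Infinite G := by
  by_contra hcon
  rw [not_infinite_iff_finite] at hcon
  have h0 : WN G = ⊤ := by
    rw [eq_top_iff]
    intro w _
    exact Set.toFinite _
  have h1 : bt (lb S) = 0 := by
    unfold bt
    rw [h0]
    exact Finset.sum_eq_zero fun l _ => sub_self _
  have h2 := beta_le S
  linarith

/-- **finitely generated groups with a positive invariant** -/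
theorem sparse_of_beta_pos (S : Finset G) (hS : Subgroup.closure (S : Set G) = ⊤) (hb : 0 < beta S) :
    SparseSets G := by
  have hinf := infinite_of_beta_pos S hb
  by_cases h1 : ∀ g : G, IsOfFinOrder g
  swap
  · push Not at h1
    obtain ⟨h, hh⟩ := h1
    exact sparse_of_element S hS hb h hh
  by_cases h2 : ∀ n : ℕ, ∃ H : Subgroup G, Finite H ∧ n ≤ Nat.card H
  · exact sparse_of_finite S hS hb h2
  push Not at h2
  obtain ⟨B, hB⟩ := h2
  by_cases h3 : ∃ (K : Subgroup G) (F : Finset K), Infinite K ∧ Subgroup.closure (F : Set K) = ⊤ ∧ beta F < beta S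
  · obtain ⟨K, F, hK, hF, h4⟩ := h3
    exact sparse_of_infinite S hS K F hF h4
  push Not at h3
  exfalso
  exact no_tors S hS B (fun H hH => (hB H hH).le) h1 (fun K F hK hF => hb.trans_le (h3 K F hK hF)) hinf

/-- **all groups with a cocycle which is not a limit of inner cocycles** -/
theorem sparse_of_cocycle {b : G → G → ℝ} (hb : IsCocycle b) (h : ¬ IsLimInner b) : SparseSets G := by
  obtain ⟨K, F, hF, hb'⟩ := exists_subgroup hb h
  exact (sparse_of_beta_pos F hF hb').over K

end Pool.Agent.H79.CG
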